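import Pool.Agent.Q2.FlLem

/-!
The cases `i = 1` and `i = 2`.

Proofs.
* `qst_one`: a flag from `G` to `D` is a non-empty list (`IsFl.length_eq`) `H :: l`; `hF.bot` with
  `J = ∅` (`I.card = 1 ≤ 1 + 0`).
* `p2_zero'`: the proof of `W3.p2_zero` (file W3/P2a), which only uses two colours. (Copy that proof; the
  hypothesis `3 ≤ q` is only used for `0 < q` and `1 < q`.)
* `qst_two`: a flag from `G` to `D` has length two: `[H, D]` with `H ∈ btw Ω G D` (`IsFl.length_eq`,
  `IsFl.last`). Apply `p2_zero'` to `F0 := G`, `F2 := D`, `I`, `y0`, `z H := Z [H, D]`: `2 * 0 + 1 ≤ 2`,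
  `2 ≤ 2`; sum: `hF.cyc y _ G D [] []`; second hypothesis: `hF.top`; third: `hF.bot`
  (`I.card = 2 ≤ 1 + J.card`).
-/

set_option autoImplicit false

namespace Pool.Agent.Q2

open Pool.Agent.W3

variable {E : Type*} [Fintype E] {N Ω : Matroid E} {q : ℕ} {k T : Type*} [Field k]
  [AddCommGroup T] [Module k T] {v : E → T} {ι : Type*} [Fintype ι] [DecidableEq ι]

omit [DecidableEq ι] in
theorem qst_one {R : Submodule k (E → k)} : QSt Ω R ι 1 := by
  intro G D hG hD hGD hrk I y0 Z hI hF l hl y hy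
  have hlen := hl.length_eq hrk
  obtain ⟨H, l', rfl⟩ : ∃ H l', l = H :: l' := by
    cases l with
    | nil => simp at hlen
    | cons H l' => exact ⟨H, l', rfl⟩
  exact hF.bot H l' hl y hy ⟨∅, Finset.empty_subset _, by simp [hI], by simp⟩

open P2 in
theorem p2_zero' (hc : Compl N Ω q) (hv : IsRep k N v) (hq : 2 ≤ q) (F0 F2 : Set E) :
    P2St Ω (Rel k v) ι F0 F2 0 := by
  intro I y0 z _ hI hsum _ h3 F1 hF1
  obtain ⟨h01, h12⟩ := btw_iff.1 hF1
  obtain ⟨p, hp, p', hp', hpp⟩ := Finset.one_lt_card.1 (by omega : 1 < I.card)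
  refine descend (b := 0) (F1 := F1) (h3 F1 hF1) ?_
  intro n hn hnn y hy _
  obtain rfl : n = 0 := by omega
  obtain ⟨s, hs⟩ := exists_ad hc h01.1 h12.1 h12.2.1 h01.2.2.1 h12.2.2.1
  refine red_HF hc hv h01 h12 s hs ⟨0, by omega⟩ _ y p (hy.2 p hp) (fun L hL => ?_)
    (fun L hL => ?_)
  · refine hnn _ (inY_upd hy hp ⟨hL.1, P2.van_anti h01.2.2.1 hL.2⟩) ⟨{p}, by simpa using hp,
      by simp, ?_⟩
    intro t ht
    rw [Finset.mem_singleton] at ht
    subst ht
    rw [Function.update_self]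
    exact hL.2
  · have hy1 := inY_upd hy hp (HF_sub hL)
    refine red_HF hc hv h01 h12 s hs ⟨1, by omega⟩ _ _ p' (hy1.2 p' hp') (fun L' hL' => ?_)
      (fun L' hL' => ?_)
    · refine hnn _ (inY_upd hy1 hp' ⟨hL'.1, P2.van_anti h01.2.2.1 hL'.2⟩) ⟨{p'},
        by simpa using hp', by simp, ?_⟩
      intro t ht
      rw [Finset.mem_singleton] at ht
      subst ht
      rw [Function.update_self]
      exact hL'.2
    · have hy2 := inY_upd hy1 hp' (HF_sub hL')
      refine sum_single hF1 (hsum _ hy2) fun H hH hne => ?_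
      obtain ⟨h0H, hH2⟩ := btw_iff.1 hH
      rcases pair_van hc hv h01 h12 h0H hH2 hne s hs (c := ⟨0, by omega⟩) (c' := ⟨1, by omega⟩)
        (by simp) (Or.inr hL) hL' with h | h
      · refine h3 H hH _ hy2 ⟨{p}, by simpa using hp, by simp, ?_⟩
        intro t ht
        rw [Finset.mem_singleton] at ht
        subst ht
        rw [Function.update_of_ne hpp, Function.update_self]
        exact h
      · refine h3 H hH _ hy2 ⟨{p'}, by simpa using hp', by simp, ?_⟩
        intro t ht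
        rw [Finset.mem_singleton] at ht
        subst ht
        rw [Function.update_self]
        exact h

theorem qst_two (hc : Compl N Ω q) (hv : IsRep k N v) (hq : 2 ≤ q) :
    QSt Ω (Rel k v) ι 2 := by
  intro G D hG hD hGD hrk I y0 Z hI hF l hl y hy
  have hlen := hl.length_eq hrk
  obtain ⟨H, D', rfl⟩ := List.length_eq_two.1 hlen
  have hl' : Cov Ω G H ∧ Cov Ω H D' ∧ D' = D := hl
  obtain ⟨h1, h2, h3⟩ := hl'
  subst h3
  have hfl : ∀ H ∈ btw Ω G D', IsFl Ω G [H, D'] D' := fun H hH =>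
    ⟨(P2.btw_iff.1 hH).1, (P2.btw_iff.1 hH).2, rfl⟩
  refine p2_zero' hc hv hq G D' I y0 (fun H => Z [H, D']) (by omega) (by omega) ?_ ?_ ?_ H
    (P2.btw_iff.2 ⟨h1, h2⟩) y hy
  · intro y hy
    exact hF.cyc y hy G D' [] [] rfl hG hD hGD hrk rfl
  · intro H hH y hy hex
    exact hF.top [H, D'] (hfl H hH) y hy hex
  · intro H hH y hy hex
    obtain ⟨J, hJ, hJc, hJv⟩ := hex
    exact hF.bot H [D'] (hfl H hH) y hy ⟨J, hJ, by omega, hJv⟩

end Pool.Agent.Q2
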