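import Pool.Agent.Q2.FlLem

/-!
From `QSt` to `TopVan`.

Proofs.
* `isFlag_iff`: induction on `l`.
* `cycAll_of_cyc`: Show by induction on `p`, for all `n` and `C`: if `Cyc Ω n ζ C`,
  `Ω.eRk C + n = Ω.eRank`, `IsFl C p A`, `A, B` flats, `A ⊆ B`, `Ω.eRk B = Ω.eRk A + 2`, `IsFl B s univ`, then
  `∑ H ∈ btw Ω A B, ζ (p ++ H :: B :: s) = 0`. If `p = []` then `A = C` and `n ≥ 2` (rank of `B` is at
  most `Ω.eRank`): the second part of `Cyc` (with `isFlag_iff`). If `p = P :: p'`, `n ≥ 1` and the first part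
  of `Cyc` gives `Cyc Ω (n - 1) (fun l => ζ (P :: l)) P`; use the induction hypothesis.
* `topVan_of_qst`: Unfold `TopVan`: apply `hQ n` to `G := C`, `D := univ` (a flat since `Ω.E = univ`;
  `Ω.eRk univ = Ω.eRank`), `I`, `y0`, `Z`. `cyc`: `cycAll_of_cyc`. `top`: if `y s ∈ van univ` then
  `y s = 0`, so `Z l y = 0` (`MultilinearMap.map_coord_zero`). `bot`: the hypothesis of `TopVan`
  (`n ≤ 1 + J.card`, `I.card = n`).
-/

set_option autoImplicit false

namespace Pool.Agent.Q2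

open Pool.Agent.W3

variable {E : Type*} [Fintype E] {Ω : Matroid E} {k : Type*} [Field k]
  {R : Submodule k (E → k)} {ι : Type*} [Fintype ι]

omit [Fintype E] in
theorem isFlag_iff {C : Set E} {l : List (Set E)} : IsFlag Ω C l ↔ IsFl Ω C l Set.univ := by
  induction l generalizing C with
  | nil => exact Iff.rfl
  | cons G l ih =>
    show (Cov Ω C G ∧ IsFlag Ω G l) ↔ (Cov Ω C G ∧ IsFl Ω G l Set.univ)
    rw [ih]

theorem cycAll_of_cyc {n : ℕ} {C : Set E} {ζ : List (Set E) → k}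
    (hrk : Ω.eRk C + n = Ω.eRank) (h : Cyc Ω n ζ C) : CycAll Ω C Set.univ ζ := by
  intro A B p
  induction p generalizing n C ζ with
  | nil =>
    intro s hp hA hB hAB hr hs
    have hCA : C = A := hp
    subst hCA
    have hne : Ω.eRank ≠ ⊤ := (Matroid.eRank_ne_top_iff Ω).2 inferInstance
    have hle : Ω.eRk B ≤ Ω.eRank := Ω.eRk_le_eRank B
    have hC : Ω.eRk C ≠ ⊤ := ne_top_of_le_ne_top hne (Ω.eRk_le_eRank C)
    have hn : 2 ≤ n := by
      rw [hr, ← hrk] at hle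
      have h2 : (2 : ℕ∞) ≤ n := (ENat.add_le_add_iff_left hC).1 hle
      exact_mod_cast h2
    obtain ⟨m, rfl⟩ : ∃ m, n = m + 1 := ⟨n - 1, by omega⟩
    exact h.2 B s (isFlag_iff.2 hs) hB hAB hr
  | cons P p ih =>
    intro s hp hA hB hAB hr hs
    have hne : Ω.eRank ≠ ⊤ := (Matroid.eRank_ne_top_iff Ω).2 inferInstance
    have hC : Ω.eRk C ≠ ⊤ := ne_top_of_le_ne_top hne (Ω.eRk_le_eRank C)
    have hn : 1 ≤ n := by
      have hle : Ω.eRk P ≤ Ω.eRank := Ω.eRk_le_eRank P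
      rw [hp.1.2.2.2, ← hrk] at hle
      have h2 : (1 : ℕ∞) ≤ n := (ENat.add_le_add_iff_left hC).1 hle
      exact_mod_cast h2
    obtain ⟨m, rfl⟩ : ∃ m, n = m + 1 := ⟨n - 1, by omega⟩
    have hrk' : Ω.eRk P + m = Ω.eRank := by
      rw [hp.1.2.2.2, ← hrk, add_assoc]
      congr 1
      push_cast
      ring
    exact ih hrk' (h.1 P hp.1) s hp.2 hA hB hAB hr hs

theorem topVan_of_qst (hΩ : Ω.E = Set.univ) (hQ : ∀ i, 1 ≤ i → QSt Ω R ι i) :
    TopVan Ω R ι := by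
  intro n C hC hrk hn I y0 Z hI hcyc hkill l hl y hy1 hy2
  have hU : Ω.IsFlat (Set.univ : Set E) := by
    rw [← hΩ]
    exact Ω.ground_isFlat
  have hrkU : Ω.eRk (Set.univ : Set E) = Ω.eRk C + n := by
    rw [hrk, ← hΩ, Matroid.eRk_ground]
  refine hQ n hn C Set.univ hC hU (Set.subset_univ C) hrkU I y0 Z hI ?_ l (isFlag_iff.1 hl) y
    ⟨hy1, hy2⟩
  constructor
  · intro y' hy'
    exact cycAll_of_cyc hrk (hcyc y' hy'.1 hy'.2)
  · intro l' _ y' _ hex
    obtain ⟨s, _, hsv⟩ := hex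
    have h0 : y' s = 0 := by
      funext e
      exact hsv e (Set.mem_univ e)
    exact MultilinearMap.map_coord_zero (Z l') s h0
  · intro H l' hHl y' hy' hex
    obtain ⟨J, hJ, hJc, hJv⟩ := hex
    exact hkill H l' (isFlag_iff.2 hHl) y' hy'.1 hy'.2 ⟨J, hJ, by omega, hJv⟩

end Pool.Agent.Q2
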