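import Pool.Agent.Q2.R2a

/-!
The lemma on the points of one line.

Proof of `r2`. Unfold `R2St`; let `I, y0, z, S (= T)` be given, `I = {a, b, d}` (`Finset.card_eq_three`). For
`H ∉ S` the claim is `r2_private`. Let `P1 ∈ btw Ω F0 F2`, `P1 ∈ S`, and let `U := ((btw Ω F0 F2) ∩ S).erase P1`
(at most two elements). Apply `red_KU` for `P := P1` in the slots `a`, `b`, `d` one after another
(`P2.inY_upd`): so we may assume that each of `y a`, `y b`, `y d` is in `Rel ⊓ van P1` or in `KU U`
(eight cases). If two of them are in `van P1` use the hypothesis for two arguments with `H = P1`.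
Otherwise two of them are in `KU U`: then for all `H ∈ btw Ω F0 F2`, `H ≠ P1`: `z H y = 0`, because either
`H ∉ S` (`r2_private`) or `H ∈ U` and two arguments vanish on `H`. So the sum gives `z P1 y = 0`
(`P2.sum_single`). (It is convenient to prove first: if two different slots of `I` are in `KU U` then
`z P1 y = 0`; and: if two different slots of `I` are in `van P1` then `z P1 y = 0`.)
-/

set_option autoImplicit false

namespace Pool.Agent.Q2

open Pool.Agent.W3

variable {E : Type*} [Fintype E] {N Ω : Matroid E} {q : ℕ} {k T : Type*} [Field k]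
  [AddCommGroup T] [Module k T] {v : E → T} {ι : Type*} [Fintype ι] [DecidableEq ι]

theorem r2 (hc : Compl N Ω q) (hv : IsRep k N v) (hq : 2 ≤ q) (F0 F2 : Set E) :
    R2St Ω (Rel k v) ι F0 F2 := by
  classical
  intro I y0 z hI hsum h2 S hS h1 H hH y hy
  by_cases hHS : H ∈ S
  swap
  · exact r2_private hc hv hq hI hsum h2 hS h1 hH hHS hy
  obtain ⟨h0H, hH2⟩ := P2.btw_iff.1 hH
  obtain ⟨U, hUdef⟩ : ∃ U, U = ((btw Ω F0 F2) ∩ S).erase H := ⟨_, rfl⟩
  have hU : U ⊆ btw Ω F0 F2 := by
    rw [hUdef]
    exact (Finset.erase_subset _ _).trans Finset.inter_subset_left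
  have hHU : H ∉ U := by
    rw [hUdef]
    exact Finset.notMem_erase _ _
  have hUc : U.card ≤ 2 := by
    rw [hUdef, Finset.card_erase_of_mem (Finset.mem_inter.2 ⟨hH, hHS⟩)]
    have := Finset.card_le_card (Finset.inter_subset_right (s₁ := btw Ω F0 F2) (s₂ := S))
    omega
  -- two arguments in `van H`
  have tv : ∀ y, InY (Rel k v) F0 I y0 y → ∀ s ∈ I, ∀ t ∈ I, s ≠ t → y s ∈ van k H →
      y t ∈ van k H → z H y = 0 := by
    intro y hy s hs t ht hst h3 h4
    refine h2 H hH y hy ⟨{s, t}, ?_, ?_, ?_⟩
    · intro x hx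
      rw [Finset.mem_insert, Finset.mem_singleton] at hx
      rcases hx with rfl | rfl
      · exact hs
      · exact ht
    · rw [Finset.card_pair hst]
    · intro x hx
      rw [Finset.mem_insert, Finset.mem_singleton] at hx
      rcases hx with rfl | rfl
      · exact h3
      · exact h4
  -- two arguments in `KU U`
  have tk : ∀ y, InY (Rel k v) F0 I y0 y → ∀ s ∈ I, ∀ t ∈ I, s ≠ t →
      y s ∈ KU (Rel k v ⊓ van k F0) U → y t ∈ KU (Rel k v ⊓ van k F0) U → z H y = 0 := by
    intro y hy s hs t ht hst h3 h4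
    refine P2.sum_single hH (hsum y hy) fun H' hH' hne => ?_
    by_cases hS' : H' ∈ S
    · have hU' : H' ∈ U := by
        rw [hUdef]
        exact Finset.mem_erase.2 ⟨hne, Finset.mem_inter.2 ⟨hH', hS'⟩⟩
      refine h2 H' hH' y hy ⟨{s, t}, ?_, ?_, ?_⟩
      · intro x hx
        rw [Finset.mem_insert, Finset.mem_singleton] at hx
        rcases hx with rfl | rfl
        · exact hs
        · exact ht
      · rw [Finset.card_pair hst]
      · intro x hx
        rw [Finset.mem_insert, Finset.mem_singleton] at hx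
        rcases hx with rfl | rfl
        · exact h3.2 H' hU'
        · exact h4.2 H' hU'
    · exact r2_private hc hv hq hI hsum h2 hS h1 hH' hS' hy
  -- one slot
  have step : ∀ s ∈ I, ∀ y, InY (Rel k v) F0 I y0 y →
      (∀ L, (L ∈ van k H ∨ L ∈ KU (Rel k v ⊓ van k F0) U) →
        InY (Rel k v) F0 I y0 (Function.update y s L) → z H (Function.update y s L) = 0) →
      z H y = 0 := by
    intro s hs y hy hst
    refine red_KU hc hv hq hH hU hHU hUc (z H) y s (hy.2 s hs) (fun L hL => ?_) (fun L hL => ?_)
    · exact hst L (Or.inl hL.2) (P2.inY_upd hy hs ⟨hL.1, P2.van_anti h0H.2.2.1 hL.2⟩)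
    · exact hst L (Or.inr hL) (P2.inY_upd hy hs hL.1)
  obtain ⟨a, b, d, hab, had, hbd, hIe⟩ := Finset.card_eq_three.1 hI
  have ha : a ∈ I := by rw [hIe]; simp
  have hb : b ∈ I := by rw [hIe]; simp
  have hd : d ∈ I := by rw [hIe]; simp
  refine step a ha y hy fun L1 g1 hy1 => step b hb _ hy1 fun L2 g2 hy2 =>
    step d hd _ hy2 fun L3 g3 hy3 => ?_
  have ea : Function.update (Function.update (Function.update y a L1) b L2) d L3 a = L1 := by
    rw [Function.update_of_ne had, Function.update_of_ne hab, Function.update_self]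
  have eb : Function.update (Function.update (Function.update y a L1) b L2) d L3 b = L2 := by
    rw [Function.update_of_ne hbd, Function.update_self]
  have ed : Function.update (Function.update (Function.update y a L1) b L2) d L3 d = L3 := by
    rw [Function.update_self]
  rcases g1 with g1 | g1 <;> rcases g2 with g2 | g2
  · exact tv _ hy3 a ha b hb hab (by rw [ea]; exact g1) (by rw [eb]; exact g2)
  · rcases g3 with g3 | g3
    · exact tv _ hy3 a ha d hd had (by rw [ea]; exact g1) (by rw [ed]; exact g3)
    · exact tk _ hy3 b hb d hd hbd (by rw [eb]; exact g2) (by rw [ed]; exact g3)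
  · rcases g3 with g3 | g3
    · exact tv _ hy3 b hb d hd hbd (by rw [eb]; exact g2) (by rw [ed]; exact g3)
    · exact tk _ hy3 a ha d hd had (by rw [ea]; exact g1) (by rw [ed]; exact g3)
  · exact tk _ hy3 a ha b hb hab (by rw [ea]; exact g1) (by rw [eb]; exact g2)

end Pool.Agent.Q2
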