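import Mathlib.Data.Finset.Card
import Mathlib.Algebra.BigOperators.Group.Finset.Basic
import Mathlib.Tactic
import Mathlib.Combinatorics.Enumerative.DoubleCounting

/-!
The counting argument for the lines (purely combinatorial).

`a x` is the finite set of points of the line `x`. For a set `S` of lines let `A(S) := S.biUnion a`, and for
`x ∈ S` let `N(S, x) := a x ∩ (S.erase x).biUnion a`.

`sp_step` (given (i) for `S` at `x`, and (ii) for `S.erase x`, get (ii) for `S`), where (ii) is
`h (S.biUnion a) ≤ |S.biUnion a| - ∑ x ∈ S, (|a x| - 2)`: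
`A(S) = A' ∪ a x` with `A' := (S.erase x).biUnion a`; by `hsub`
`h (A(S)) ≤ h A' + 2 - h (A' ∩ a x)` and `h (A' ∩ a x) ≥ |A' ∩ a x|` by `hsmall`; `|A(S)| = |A'| + |a x| - |A' ∩ a x|`.

`sp_count`: `2 |A(S)| + ∑ x ∈ S, |N(S, x)| ≤ 2 ∑ x ∈ S, |a x|`: for a point `p` let `d(p)` be the number of the
`x ∈ S` with `p ∈ a x`. `∑ x ∈ S |a x| = ∑ p ∈ A(S), d(p)`, and
`∑ x ∈ S |N(S, x)| = ∑ p ∈ A(S), (if d(p) ≥ 2 then d(p) else 0)` (`p ∈ a x` is in `N(S, x)` iff `d(p) ≥ 2`); and
for all `d ≥ 1`: `2 + (if d ≥ 2 then d else 0) ≤ 2 d`. (Use `Finset.card_eq_sum_ones`/`Finset.sum_comm'`,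
`Finset.sum_card_bipartiteAbove_eq_sum_card_bipartiteBelow`.)

`sp_abs`. Strong induction on `|S|` for the conjunction of (i) `S.Nonempty → ∃ x ∈ S, |N(S, x)| ≤ 3` and (ii).
`S = ∅`: `h0`. `S ≠ ∅`: (ii) follows from (i) and `sp_step`. For (i) suppose `|N(S, x)| ≥ 4` for all `x ∈ S`, and
let `x ∈ S` be such that `ν := |N(S, x)|` is minimal (`Finset.exists_min_image`). `|S| ≥ 3`, since
`N(S, x)` is the union of the `a x ∩ a y`, `y ∈ S.erase x`, which have at most one element
(`Finset.card_biUnion_le`): `ν ≤ |S| - 1`. By `hsub`, `htwo` (`N(S, x) ⊆ a x` has at least `2` elements),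
`h (A(S)) ≤ h A' + 2 - 2 = h A'`, and (ii) for `S.erase x`: `h A' ≤ |A'| - ∑ y ∈ S.erase x, (|a y| - 2)`,
`|A'| = |A(S)| - |a x| + ν`; so `h (A(S)) ≤ |A(S)| + ν - 2 - ∑ y ∈ S, (|a y| - 2)`. With `sp_count`
(`∑ |N(S, x)| ≥ |S| ν`): `2 h (A(S)) ≤ 2 ∑ |a y| - |S| ν + 2 ν - 4 - 2 ∑ |a y| + 4 |S| = (4 - ν) |S| + 2 ν - 4 ≤
3 (4 - ν) + 2 ν - 4 = 8 - ν ≤ 4` (`nlinarith`). But `h (A(S)) ≥ 3` by `hthree` (two different lines `x, y ∈ S`,
`|S| ≥ 3`), a contradiction.
-/

set_option autoImplicit false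

namespace Pool.Agent.Q2

open Finset

variable {α β : Type*} [DecidableEq α] [DecidableEq β]

private theorem sp_union (a : β → Finset α) {S : Finset β} {x : β} (hx : x ∈ S) :
    S.biUnion a = (S.erase x).biUnion a ∪ a x := by
  conv_lhs => rw [← Finset.insert_erase hx]
  rw [Finset.biUnion_insert, Finset.union_comm]

theorem sp_step (a : β → Finset α) (h : Finset α → ℤ) {S : Finset β} {x : β} (hx : x ∈ S)
    (hsub : h ((S.erase x).biUnion a ∪ a x) ≤
      h ((S.erase x).biUnion a) + 2 - h ((S.erase x).biUnion a ∩ a x))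
    (hN : (((S.erase x).biUnion a ∩ a x).card : ℤ) ≤ h ((S.erase x).biUnion a ∩ a x))
    (hii : h ((S.erase x).biUnion a) ≤
      ((S.erase x).biUnion a).card - ∑ y ∈ S.erase x, (((a y).card : ℤ) - 2)) :
    h (S.biUnion a) ≤ (S.biUnion a).card - ∑ y ∈ S, (((a y).card : ℤ) - 2) := by
  have h1 := sp_union a hx
  have h2 : (S.biUnion a).card + ((S.erase x).biUnion a ∩ a x).card =
      ((S.erase x).biUnion a).card + (a x).card := by
    rw [h1, Finset.card_union_add_card_inter]
  have h3 : ∑ y ∈ S, (((a y).card : ℤ) - 2) =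
      ∑ y ∈ S.erase x, (((a y).card : ℤ) - 2) + (((a x).card : ℤ) - 2) :=
    (Finset.sum_erase_add S _ hx).symm
  rw [← h1] at hsub
  have h4 : ((S.biUnion a).card : ℤ) + (((S.erase x).biUnion a ∩ a x).card : ℤ) =
      (((S.erase x).biUnion a).card : ℤ) + ((a x).card : ℤ) := by exact_mod_cast h2
  linarith

theorem sp_count (a : β → Finset α) (S : Finset β) :
    2 * (S.biUnion a).card + ∑ x ∈ S, (a x ∩ (S.erase x).biUnion a).card ≤
      2 * ∑ x ∈ S, (a x).card := by
  classical
  have e1 : ∑ x ∈ S, (a x).card = ∑ p ∈ S.biUnion a, (S.filter (fun x => p ∈ a x)).card := by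
    have := Finset.sum_card_bipartiteAbove_eq_sum_card_bipartiteBelow (s := S)
      (t := S.biUnion a) (fun x p => p ∈ a x)
    unfold Finset.bipartiteAbove Finset.bipartiteBelow at this
    rw [← this]
    refine Finset.sum_congr rfl fun x hx => ?_
    congr 1
    ext p
    rw [Finset.mem_filter, Finset.mem_biUnion]
    exact ⟨fun hp => ⟨⟨x, hx, hp⟩, hp⟩, fun hp => hp.2⟩
  have e2 : ∑ x ∈ S, (a x ∩ (S.erase x).biUnion a).card = ∑ p ∈ S.biUnion a,
      (S.filter (fun x => p ∈ a x ∧ ∃ y ∈ S, y ≠ x ∧ p ∈ a y)).card := by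
    have := Finset.sum_card_bipartiteAbove_eq_sum_card_bipartiteBelow (s := S)
      (t := S.biUnion a) (fun x p => p ∈ a x ∧ ∃ y ∈ S, y ≠ x ∧ p ∈ a y)
    unfold Finset.bipartiteAbove Finset.bipartiteBelow at this
    rw [← this]
    refine Finset.sum_congr rfl fun x hx => ?_
    congr 1
    ext p
    rw [Finset.mem_filter, Finset.mem_inter, Finset.mem_biUnion, Finset.mem_biUnion]
    constructor
    · rintro ⟨hp, y, hy, hpy⟩
      rw [Finset.mem_erase] at hy
      exact ⟨⟨x, hx, hp⟩, hp, y, hy.2, hy.1, hpy⟩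
    · rintro ⟨_, hp, y, hy, hne, hpy⟩
      exact ⟨hp, y, Finset.mem_erase.2 ⟨hne, hy⟩, hpy⟩
  have e3 : 2 * (S.biUnion a).card = ∑ p ∈ S.biUnion a, 2 := by
    rw [Finset.sum_const, smul_eq_mul, mul_comm]
  rw [e1, e2, e3, ← Finset.sum_add_distrib, Finset.mul_sum]
  refine Finset.sum_le_sum fun p hp => ?_
  rw [Finset.mem_biUnion] at hp
  obtain ⟨x0, hx0, hp0⟩ := hp
  have hx0' : x0 ∈ S.filter (fun x => p ∈ a x) := Finset.mem_filter.2 ⟨hx0, hp0⟩
  have hpos : 1 ≤ (S.filter (fun x => p ∈ a x)).card := Finset.card_pos.2 ⟨x0, hx0'⟩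
  rcases hpos.eq_or_lt with h1 | h1
  · have h2 : (S.filter (fun x => p ∈ a x ∧ ∃ y ∈ S, y ≠ x ∧ p ∈ a y)) = ∅ := by
      rw [Finset.filter_eq_empty_iff]
      rintro x hx ⟨hpx, y, hy, hne, hpy⟩
      have h3 := Finset.card_le_one.1 h1.symm.le
      exact hne (h3 y (Finset.mem_filter.2 ⟨hy, hpy⟩) x (Finset.mem_filter.2 ⟨hx, hpx⟩))
    rw [h2, Finset.card_empty]
    omega
  · have h2 : (S.filter (fun x => p ∈ a x ∧ ∃ y ∈ S, y ≠ x ∧ p ∈ a y)).card ≤
        (S.filter (fun x => p ∈ a x)).card := by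
      apply Finset.card_le_card
      intro x hx
      rw [Finset.mem_filter] at hx ⊢
      exact ⟨hx.1, hx.2.1⟩
    omega

theorem sp_abs (a : β → Finset α) (h : Finset α → ℤ) (U : Finset α) (h0 : h ∅ ≤ 0)
    (S : Finset β) (hU : ∀ x ∈ S, a x ⊆ U)
    (hpair : ∀ x ∈ S, ∀ y ∈ S, x ≠ y → (a x ∩ a y).card ≤ 1)
    (hsub : ∀ x ∈ S, ∀ A ⊆ U, h (A ∪ a x) ≤ h A + 2 - h (A ∩ a x))
    (hsmall : ∀ x ∈ S, ∀ M ⊆ a x, M.card ≤ 3 → (M.card : ℤ) ≤ h M)
    (htwo : ∀ x ∈ S, ∀ M ⊆ a x, 2 ≤ M.card → 2 ≤ h M)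
    (hthree : ∀ x ∈ S, ∀ y ∈ S, x ≠ y → ∀ A ⊆ U, a x ⊆ A → a y ⊆ A → 3 ≤ h A)
    (hne : S.Nonempty) : ∃ x ∈ S, (a x ∩ (S.erase x).biUnion a).card ≤ 3 := by
  classical
  have key : ∀ (n : ℕ) (T : Finset β), T.card = n → T ⊆ S →
      (T.Nonempty → ∃ x ∈ T, (a x ∩ (T.erase x).biUnion a).card ≤ 3) ∧
      h (T.biUnion a) ≤ (T.biUnion a).card - ∑ y ∈ T, (((a y).card : ℤ) - 2) := by
    intro n
    induction n using Nat.strong_induction_on with
    | _ n ih =>
      intro T hTn hTS
      rcases T.eq_empty_or_nonempty with hT | hT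
      · subst hT
        refine ⟨fun h => absurd h (by simp), ?_⟩
        simpa using h0
      · have hTU : ∀ T' ⊆ T, T'.biUnion a ⊆ U := by
          intro T' hT' p hp
          rw [Finset.mem_biUnion] at hp
          obtain ⟨x, hx, hpx⟩ := hp
          exact hU x (hTS (hT' hx)) hpx
        have hI : ∀ x ∈ T, h ((T.erase x).biUnion a) ≤
            ((T.erase x).biUnion a).card - ∑ y ∈ T.erase x, (((a y).card : ℤ) - 2) := by
          intro x hx
          have hc : (T.erase x).card < n := by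
            rw [← hTn]; exact Finset.card_erase_lt_of_mem hx
          exact (ih _ hc (T.erase x) rfl ((Finset.erase_subset _ _).trans hTS)).2
        have hone : ∃ x ∈ T, (a x ∩ (T.erase x).biUnion a).card ≤ 3 := by
          by_contra hcon
          push Not at hcon
          obtain ⟨x, hx, hmin⟩ := T.exists_min_image
            (fun x => (a x ∩ (T.erase x).biUnion a).card) hT
          have hν4 := hcon x hx
          set ν : ℕ := (a x ∩ (T.erase x).biUnion a).card with hν
          have hνle : ν + 1 ≤ T.card := by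
            have h1 : a x ∩ (T.erase x).biUnion a = (T.erase x).biUnion (fun y => a x ∩ a y) := by
              ext p
              simp only [Finset.mem_inter, Finset.mem_biUnion]
              constructor
              · rintro ⟨hp, y, hy, hpy⟩
                exact ⟨y, hy, hp, hpy⟩
              · rintro ⟨y, hy, hp, hpy⟩
                exact ⟨hp, y, hy, hpy⟩
            have h2 : ν ≤ (T.erase x).card * 1 := by
              rw [hν, h1]
              apply Finset.card_biUnion_le_card_mul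
              intro y hy
              rw [Finset.mem_erase] at hy
              exact hpair x (hTS hx) y (hTS hy.2) (Ne.symm hy.1)
            have h3 := Finset.card_erase_add_one hx
            omega
          have hA1 := hsub x (hTS hx) ((T.erase x).biUnion a) (hTU _ (Finset.erase_subset _ _))
          have hsw : (T.erase x).biUnion a ∩ a x = a x ∩ (T.erase x).biUnion a :=
            Finset.inter_comm _ _
          have h2 : 2 ≤ h ((T.erase x).biUnion a ∩ a x) := by
            apply htwo x (hTS hx) _ (Finset.inter_subset_right)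
            rw [hsw]
            omega
          have h3 := hI x hx
          have h4 := sp_union a hx
          rw [← h4] at hA1
          have h5 : ((T.biUnion a).card : ℤ) + (ν : ℤ) =
              (((T.erase x).biUnion a).card : ℤ) + ((a x).card : ℤ) := by
            have h6 : (T.biUnion a).card + ν = ((T.erase x).biUnion a).card + (a x).card := by
              rw [hν, ← hsw, h4, Finset.card_union_add_card_inter]
            exact_mod_cast h6
          have h7 : ∑ y ∈ T, (((a y).card : ℤ) - 2) =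
              ∑ y ∈ T.erase x, (((a y).card : ℤ) - 2) + (((a x).card : ℤ) - 2) :=
            (Finset.sum_erase_add T _ hx).symm
          have h8 : ∑ y ∈ T, (((a y).card : ℤ) - 2) =
              ((∑ y ∈ T, (a y).card : ℕ) : ℤ) - 2 * (T.card : ℤ) := by
            rw [Finset.sum_sub_distrib, Finset.sum_const, nsmul_eq_mul]
            push_cast
            ring
          have h9 := sp_count a T
          have h10 : T.card * ν ≤ ∑ x ∈ T, (a x ∩ (T.erase x).biUnion a).card := by
            rw [← smul_eq_mul]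
            exact Finset.card_nsmul_le_sum T _ ν fun y hy => hmin y hy
          have h11 : 2 * ((T.biUnion a).card : ℤ) + (T.card : ℤ) * ν ≤
              2 * ((∑ y ∈ T, (a y).card : ℕ) : ℤ) := by
            exact_mod_cast (by omega : 2 * (T.biUnion a).card + T.card * ν ≤
              2 * ∑ x ∈ T, (a x).card)
          have h12 : 3 ≤ h (T.biUnion a) := by
            obtain ⟨x1, hx1, x2, hx2, hne12⟩ := Finset.one_lt_card.1 (by omega : 1 < T.card)
            exact hthree x1 (hTS hx1) x2 (hTS hx2) hne12 _ (hTU T (Finset.Subset.refl _))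
              (Finset.subset_biUnion_of_mem a hx1) (Finset.subset_biUnion_of_mem a hx2)
          have h13 : (4 : ℤ) ≤ ν := by exact_mod_cast hν4
          have h14 : (3 : ℤ) ≤ T.card := by exact_mod_cast (by omega : 3 ≤ T.card)
          nlinarith
        refine ⟨fun _ => hone, ?_⟩
        obtain ⟨x, hx, hx3⟩ := hone
        have hsw : (T.erase x).biUnion a ∩ a x = a x ∩ (T.erase x).biUnion a :=
          Finset.inter_comm _ _
        refine sp_step a h hx (hsub x (hTS hx) _ (hTU _ (Finset.erase_subset _ _))) ?_ (hI x hx)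
        apply hsmall x (hTS hx) _ (Finset.inter_subset_right)
        rw [hsw]
        exact hx3
  exact (key S.card S rfl (Finset.Subset.refl _)).1 hne

end Pool.Agent.Q2
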