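import Pool.Agent.Q2.SpPts
import Pool.Agent.Q2.SpAbs

/-!
The sparsity statement.

Proof of `sp`. Let `G`, `S` be given as in `SpSt` (`classical`). Apply `sp_abs` with `α = β = Set E`,
`a L := btw Ω G L`, `h := hRel N q G`, `U := ptU Ω G`. Its hypotheses:
* `h ∅ = 0`: `uG G ∅ = G`.
* `hU`: members of `btw Ω G L` cover `G`.
* `hpair`: if `P ≠ P'` are both in `btw Ω G L ∩ btw Ω G L'`, then `L = L'`: both are flats of the same rank
  `Ω.eRk G + 2` containing `P ∪ P'`, which has rank at least `Ω.eRk G + 2` (`P ⊂ P ∪ P'`, `P` is a flat of rank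
  `Ω.eRk G + 1`); see `rk_two_pts`.
* `hsub`: `hRel_union`.
* `htwo`: two different `P, P' ∈ M`: `uG G M ⊇ P ∪ P'`, `hRel_ge`, `rk_two_pts`, `rN_mono`, `rN_cov`.
* `hsmall`: `|M| = 0`: `h ∅ = 0`; `|M| = 1`: `uG G {P} = P`, `hRel_ge` (`rN Ω P = rN Ω G + 1`); `|M| = 2`: `htwo`;
  `|M| = 3`: `hRel N q G M ≥ 2` by `htwo`, and `hRel N q G M = 3 + q c` by `hRel_mod`; `3 + q c = 2` is impossible
  since `q ≥ 2` (`q * (-c) = 1`), so `hRel N q G M ≥ 3`.
* `hthree`: `uG G A ⊇ L ∪ L'` (`uG_line` and monotonicity), of rank at least `Ω.eRk G + 3` (`L` is a flat of rank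
  `Ω.eRk G + 2` and `L'` is not contained in `L`, since both have the same rank and are different flats).
The result is `L ∈ S` with `T := btw Ω G L ∩ (S.erase L).biUnion (btw Ω G)`, `|T| ≤ 3`. If `P ∈ btw Ω G L`, `L' ∈ S`,
`L' ≠ L` and `P ⊆ L'` then `P ∈ btw Ω G L'` (`Ω.eRk L' = Ω.eRk P + 1`), so `P ∈ T`.
-/

set_option autoImplicit false

namespace Pool.Agent.Q2

open Pool.Agent.W3 Set

variable {E : Type*} [Fintype E] {N Ω : Matroid E} {q : ℕ}

private theorem flat_eq {F F' : Set E} (hF : Ω.IsFlat F) (hF' : Ω.IsFlat F') (h : F ⊆ F')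
    (hrk : Ω.eRk F' ≤ Ω.eRk F) : F = F' := by
  have hfin : Ω.IsRkFinite F := Ω.isRkFinite_of_finite (Set.toFinite _)
  have h2 := hfin.closure_eq_closure_of_subset_of_eRk_ge_eRk h hrk
  rw [hF.closure, hF'.closure] at h2
  exact h2

private theorem rk_two_aux (hΩ : Ω.E = univ) {P P' : Set E} (hP : Ω.IsFlat P) (hP' : Ω.IsFlat P')
    (hrk : Ω.eRk P ≤ Ω.eRk P') (hne : P ≠ P') : Ω.eRk P + 1 ≤ Ω.eRk (P ∪ P') := by
  obtain ⟨x, hx, hxP⟩ : ∃ x ∈ P', x ∉ P := by
    by_contra h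
    push Not at h
    exact hne (flat_eq hP' hP h hrk).symm
  have h1 : Ω.eRk (insert x P) = Ω.eRk P + 1 := by
    apply Matroid.eRk_insert_eq_add_one
    rw [hP.closure]
    exact ⟨by rw [hΩ]; exact mem_univ x, hxP⟩
  rw [← h1]
  exact Ω.eRk_mono (insert_subset (Or.inr hx) subset_union_left)

theorem rk_two_pts (hΩ : Ω.E = univ) {G P P' : Set E} (hP : Cov Ω G P) (hP' : Cov Ω G P')
    (hne : P ≠ P') : Ω.eRk G + 2 ≤ Ω.eRk (P ∪ P') := by
  have h := rk_two_aux hΩ hP.2.1 hP'.2.1 (by rw [hP.2.2.2, hP'.2.2.2]) hne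
  rw [hP.2.2.2, add_assoc, one_add_one_eq_two] at h
  exact h

theorem rk_two_lines (hΩ : Ω.E = univ) {G L L' : Set E} (hL : Ω.IsFlat L) (hL' : Ω.IsFlat L')
    (hrk : Ω.eRk L = Ω.eRk G + 2) (hrk' : Ω.eRk L' = Ω.eRk G + 2) (hne : L ≠ L') :
    Ω.eRk G + 3 ≤ Ω.eRk (L ∪ L') := by
  have h := rk_two_aux hΩ hL hL' (by rw [hrk, hrk']) hne
  rw [hrk, add_assoc] at h
  exact h

private theorem rN_ge {X Y : Set E} {n : ℕ} (h : Ω.eRk X + n ≤ Ω.eRk Y) :
    rN Ω X + n ≤ rN Ω Y := by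
  have h1 := rN_cast (N := Ω) X
  have h2 := rN_cast (N := Ω) Y
  rw [← h1, ← h2] at h
  have h3 : (Ω.eRk X).toNat + n ≤ (Ω.eRk Y).toNat := by exact_mod_cast h
  unfold rN
  exact_mod_cast h3

omit [Fintype E] in
private theorem uG_mono' {G : Set E} {A B : Finset (Set E)} (h : A ⊆ B) : uG G A ⊆ uG G B := by
  unfold uG
  intro x hx
  simp only [mem_union, mem_iUnion, exists_prop] at hx ⊢
  rcases hx with hx | ⟨P, hP, hx⟩
  · exact Or.inl hx
  · exact Or.inr ⟨P, h hP, hx⟩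

omit [Fintype E] in
private theorem sub_uG {G P : Set E} {A : Finset (Set E)} (h : P ∈ A) : P ⊆ uG G A := by
  unfold uG
  intro x hx
  simp only [mem_union, mem_iUnion, exists_prop]
  exact Or.inr ⟨P, h, hx⟩

theorem sp (hc : Compl N Ω q) (hq : 2 ≤ q) : SpSt Ω := by
  classical
  intro G hG S hne hS
  have hΩ := hc.ground
  have htwo : ∀ M : Finset (Set E), M ⊆ ptU Ω G → 2 ≤ M.card → 2 ≤ hRel N q G M := by
    intro M hM hM2
    obtain ⟨P, hP, P', hP', hPP⟩ := Finset.one_lt_card.1 (by omega : 1 < M.card)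
    have h1 := hRel_ge hc hG M
    have h2 : Ω.eRk G + (2 : ℕ) ≤ Ω.eRk (uG G M) :=
      (rk_two_pts hΩ (mem_ptU.1 (hM hP)) (mem_ptU.1 (hM hP')) hPP).trans
        (Ω.eRk_mono (union_subset (sub_uG hP) (sub_uG hP')))
    have h3 := rN_ge h2
    push_cast at h3
    linarith
  have hbU : ∀ L, btw Ω G L ⊆ ptU Ω G := fun L P hP => mem_ptU.2 (P2.btw_iff.1 hP).1
  have h0 : hRel N q G ∅ = 0 := by
    have : uG G (∅ : Finset (Set E)) = G := by
      unfold uG
      simp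
    unfold hRel
    rw [this, sub_self]
  have hsmall : ∀ M : Finset (Set E), M ⊆ ptU Ω G → M.card ≤ 3 → (M.card : ℤ) ≤ hRel N q G M := by
    intro M hM hM3
    have hcases : M.card = 0 ∨ M.card = 1 ∨ M.card = 2 ∨ M.card = 3 := by omega
    rcases hcases with h | h | h | h
    · rw [Finset.card_eq_zero.1 h, h0]
      simp
    · obtain ⟨P, rfl⟩ := Finset.card_eq_one.1 h
      have hP := mem_ptU.1 (hM (Finset.mem_singleton_self P))
      have h1 := hRel_ge hc hG {P}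
      have h2 : Ω.eRk G + (1 : ℕ) ≤ Ω.eRk (uG G {P}) := by
        have h4 : Ω.eRk P = Ω.eRk G + (1 : ℕ) := hP.2.2.2
        rw [← h4]
        exact Ω.eRk_mono (sub_uG (Finset.mem_singleton_self P))
      have h3 := rN_ge h2
      rw [h]
      push_cast at h3 ⊢
      linarith
    · rw [h]
      exact htwo M hM (by omega)
    · have h1 := htwo M hM (by omega)
      obtain ⟨c, hc1⟩ := hRel_mod hc hG hM
      rw [h] at hc1 ⊢
      push_cast at hc1 ⊢
      have hc0 : 0 ≤ c := by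
        by_contra hneg
        push Not at hneg
        have h2 : (2 : ℤ) ≤ q := by exact_mod_cast hq
        nlinarith
      have : 0 ≤ (q : ℤ) * c := by positivity
      linarith
  obtain ⟨L, hL, hcard⟩ := sp_abs (fun L => btw Ω G L) (hRel N q G) (ptU Ω G) h0.le S
    (fun L _ => hbU L) (by
      intro L hL L' hL' hne'
      rw [Finset.card_le_one]
      intro P hP P' hP'
      rw [Finset.mem_inter] at hP hP'
      by_contra hPP
      obtain ⟨f1, f2, f3⟩ := hS L hL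
      obtain ⟨f1', f2', f3'⟩ := hS L' hL'
      have g1 := P2.btw_iff.1 hP.1
      have g2 := P2.btw_iff.1 hP.2
      have g3 := P2.btw_iff.1 hP'.1
      have g4 := P2.btw_iff.1 hP'.2
      have h1 := rk_two_pts hΩ g1.1 g3.1 hPP
      have hfin : Ω.IsRkFinite (P ∪ P') := Ω.isRkFinite_of_finite (Set.toFinite _)
      have h2 := hfin.closure_eq_closure_of_subset_of_eRk_ge_eRk
        (union_subset g1.2.2.2.1 g3.2.2.2.1) (by rw [f3]; exact h1)
      have h3 := hfin.closure_eq_closure_of_subset_of_eRk_ge_eRk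
        (union_subset g2.2.2.2.1 g4.2.2.2.1) (by rw [f3']; exact h1)
      rw [f1.closure] at h2
      rw [f1'.closure] at h3
      exact hne' (h2.symm.trans h3)) (by
      intro L hL A hA
      obtain ⟨f1, f2, f3⟩ := hS L hL
      convert hRel_union hc hG f1 f2 f3 hA) (fun L hL M hM h => hsmall M (hM.trans (hbU L)) h)
    (fun L hL M hM h => htwo M (hM.trans (hbU L)) h) (by
      intro L hL L' hL' hne' A hA h1 h2
      obtain ⟨f1, f2, f3⟩ := hS L hL
      obtain ⟨f1', f2', f3'⟩ := hS L' hL'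
      have g1 : L ⊆ uG G A := by
        have := uG_mono' (G := G) h1
        rwa [uG_line hΩ hG f1 f2 f3] at this
      have g2 : L' ⊆ uG G A := by
        have := uG_mono' (G := G) h2
        rwa [uG_line hΩ hG f1' f2' f3'] at this
      have h3 := hRel_ge hc hG A
      have h4 : Ω.eRk G + (3 : ℕ) ≤ Ω.eRk (uG G A) :=
        (rk_two_lines hΩ f1 f1' f3 f3' hne').trans (Ω.eRk_mono (union_subset g1 g2))
      have h5 := rN_ge h4
      push_cast at h5
      linarith) hne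
  refine ⟨L, hL, _, hcard, ?_⟩
  intro P hP hPT L' hL' hne' hsub
  apply hPT
  obtain ⟨g1, g2⟩ := P2.btw_iff.1 hP
  obtain ⟨f1', f2', f3'⟩ := hS L' hL'
  rw [Finset.mem_inter, Finset.mem_biUnion]
  refine ⟨hP, L', Finset.mem_erase.2 ⟨hne', hL'⟩, P2.btw_iff.2 ⟨g1, g1.2.1, f1', hsub, ?_⟩⟩
  rw [f3', g1.2.2.2, add_assoc, one_add_one_eq_two]

end Pool.Agent.Q2
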