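import Pool.Agent.Q2.StD
import Pool.Agent.Q2.Base12
import Pool.Agent.Q2.QTop
import Pool.Agent.Q2.R2b
import Pool.Agent.Q2.Sp

/-!
The vanishing statement in all ranks.

Proof of `qst_all`: strong induction on `i` (`Nat.strong_induction_on`): `i = 1`: `qst_one`, `i = 2`: `qst_two`,
`i ≥ 3`: `qst_step` with `sp`, `r2`. `topVan2`: `topVan_of_qst`.
-/

set_option autoImplicit false

namespace Pool.Agent.Q2

open Pool.Agent.W3

variable {E : Type*} [Fintype E] {N Ω : Matroid E} {q : ℕ} {k T : Type*} [Field k]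
  [AddCommGroup T] [Module k T] {v : E → T} {ι : Type*} [Fintype ι] [DecidableEq ι]

theorem qst_all (hc : Compl N Ω q) (hv : IsRep k N v) (hq : 2 ≤ q) :
    ∀ i, 1 ≤ i → QSt Ω (Rel k v) ι i := by
  intro i
  induction i using Nat.strong_induction_on with
  | _ i ih =>
    intro hi
    rcases Nat.lt_or_ge i 3 with h | h
    · interval_cases i
      · exact qst_one
      · exact qst_two hc hv hq
    · exact qst_step hc.ground h (sp hc hq) (fun F0 F2 _ _ _ _ => r2 hc hv hq F0 F2)
        (fun j h1 h2 => ih j h2 h1)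

theorem topVan2 (hc : Compl N Ω q) (hv : IsRep k N v) (hq : 2 ≤ q) :
    TopVan Ω (Rel k v) ι :=
  topVan_of_qst hc.ground (qst_all hc hv hq)

end Pool.Agent.Q2
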