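import Pool.Agent.W3.P2a
import Pool.Agent.W3.Claim

/-!
Definitions for the theorem: the toric ideal of a matroid which is representable over a field of
characteristic zero is generated by quadrics (problem MP_e6151a_ag). See `BLUEPRINT.md`.
-/

set_option autoImplicit false

namespace Pool.Agent.Q2

open Pool.Agent.W3

/-- Maximal flags from `F` to `D`; `F` is not in the list, `D` is its last entry. -/
def IsFl {E : Type*} (Ω : Matroid E) : Set E → List (Set E) → Set E → Prop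
  | F, [], D => F = D
  | F, (G :: l), D => Cov Ω F G ∧ IsFl Ω G l D

section Fam

variable {E : Type*} [Fintype E] {k : Type*} [Field k] {ι : Type*} [Fintype ι]

/-- All sums over the possible choices of one interior member of the flags from `G` to `D` are
zero. -/
def CycAll (Ω : Matroid E) (G D : Set E) (ζ : List (Set E) → k) : Prop :=
  ∀ A B p s, IsFl Ω G p A → Ω.IsFlat A → Ω.IsFlat B → A ⊆ B → Ω.eRk B = Ω.eRk A + 2 →
    IsFl Ω B s D → ∑ H ∈ btw Ω A B, ζ (p ++ H :: B :: s) = 0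

/-- The conditions on a family `Z` on the flags from `G` to `D`. -/
structure Fam (Ω : Matroid E) (R : Submodule k (E → k)) (G D : Set E) (I : Finset ι)
    (y0 : ι → E → k) (Z : List (Set E) → ML k E ι) : Prop where
  cyc : ∀ y, InY R G I y0 y → CycAll Ω G D (fun l => Z l y)
  top : ∀ l, IsFl Ω G l D → ∀ y, InY R G I y0 y → (∃ s ∈ I, y s ∈ van k D) → Z l y = 0
  bot : ∀ H l, IsFl Ω G (H :: l) D → ∀ y, InY R G I y0 y →
    (∃ J ⊆ I, I.card ≤ 1 + J.card ∧ ∀ s ∈ J, y s ∈ van k H) → Z (H :: l) y = 0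

/-- The vanishing statement in rank `i`. -/
def QSt (Ω : Matroid E) (R : Submodule k (E → k)) (ι : Type*) [Fintype ι] (i : ℕ) : Prop :=
  ∀ G D : Set E, Ω.IsFlat G → Ω.IsFlat D → G ⊆ D → Ω.eRk D = Ω.eRk G + i →
    ∀ (I : Finset ι) (y0 : ι → E → k) (Z : List (Set E) → ML k E ι), I.card = i →
      Fam Ω R G D I y0 Z → ∀ l, IsFl Ω G l D → ∀ y, InY R G I y0 y → Z l y = 0

/-- `Z` vanishes if at least `I.card - m` arguments vanish on the member number `m` of the flag
(`m` is not the length of the flag). -/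
def Lev (Ω : Matroid E) (R : Submodule k (E → k)) (G D : Set E) (I : Finset ι)
    (y0 : ι → E → k) (Z : List (Set E) → ML k E ι) : Prop :=
  ∀ F p s, IsFl Ω G p F → IsFl Ω F s D → 1 ≤ p.length → 1 ≤ s.length →
    ∀ y, InY R G I y0 y →
    (∃ J ⊆ I, I.card ≤ p.length + J.card ∧ ∀ t ∈ J, y t ∈ van k F) → Z (p ++ s) y = 0

/-- The line `L` is good. -/
def GoodL (Ω : Matroid E) (R : Submodule k (E → k)) (G D : Set E) (I : Finset ι)
    (y0 : ι → E → k) (Z : List (Set E) → ML k E ι) (L : Set E) : Prop :=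
  ∀ P s, IsFl Ω G (P :: L :: s) D → ∀ y, InY R G I y0 y →
    (∃ J ⊆ I, I.card ≤ 3 + J.card ∧ ∀ t ∈ J, y t ∈ van k L) → Z (P :: L :: s) y = 0

/-- The statement of the lemma on the points of one line; `T` contains the non-private points. -/
def R2St (Ω : Matroid E) (R : Submodule k (E → k)) (ι : Type*) [Fintype ι] (F0 F2 : Set E) :
    Prop :=
  ∀ (I : Finset ι) (y0 : ι → E → k) (z : Set E → ML k E ι), I.card = 3 →
    (∀ y, InY R F0 I y0 y → ∑ H ∈ btw Ω F0 F2, z H y = 0) →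
    (∀ H ∈ btw Ω F0 F2, ∀ y, InY R F0 I y0 y →
      (∃ J ⊆ I, 2 ≤ J.card ∧ ∀ s ∈ J, y s ∈ van k H) → z H y = 0) →
    ∀ T : Finset (Set E), T.card ≤ 3 →
    (∀ H ∈ btw Ω F0 F2, H ∉ T → ∀ y, InY R F0 I y0 y → (∃ s ∈ I, y s ∈ van k H) →
      z H y = 0) →
    ∀ H ∈ btw Ω F0 F2, ∀ y, InY R F0 I y0 y → z H y = 0

/-- Every non-empty set `S` of lines (flats of rank two above `G`) has a member with at most three
points on other members of `S`. -/
def SpSt (Ω : Matroid E) : Prop :=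
  ∀ G : Set E, Ω.IsFlat G → ∀ S : Finset (Set E), S.Nonempty →
    (∀ L ∈ S, Ω.IsFlat L ∧ G ⊆ L ∧ Ω.eRk L = Ω.eRk G + 2) →
    ∃ L ∈ S, ∃ T : Finset (Set E), T.card ≤ 3 ∧
      ∀ P ∈ btw Ω G L, P ∉ T → ∀ L' ∈ S, L' ≠ L → ¬ P ⊆ L'

end Fam

end Pool.Agent.Q2
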