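import Pool.Agent.Q2.FlDefs

/-!
Lemmas on flags from `F` to `D`.

Proofs.
* `IsFl.append`, `isFl_append`: induction on `p`.
* `IsFl.subset`, `IsFl.flat`, `IsFl.rk`: induction on `l`; `Cov` contains the flat, the inclusion and
  the rank.
* `IsFl.length_eq`: `IsFl.rk` and cancellation (`Ω.eRk F` is finite, `E` is finite).
* `IsFl.last`: induction on `l` (or `List.eq_nil_or_concat` and `isFl_append`): write `l = p ++ [X]`; then
  `IsFl A [X] D` means `Cov A X` and `X = D`.
* `CycAll.suffix`: in the definition for `p, s'` use `CycAll` for `p`, `s' ++ s`; the lists agree by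
  `List.append_assoc`, `List.cons_append` (`simp`).
* `CycAll.cons`: use `P :: p` and `s`.
* `btw_of`: the definition of `btw`; `Cov` gives rank `+ 1 + 1 = + 2`.
-/

set_option autoImplicit false

namespace Pool.Agent.Q2

open Pool.Agent.W3

section

variable {E : Type*} {Ω : Matroid E} {F D A : Set E} {p s l : List (Set E)}

theorem IsFl.append (hp : IsFl Ω F p A) (hs : IsFl Ω A s D) : IsFl Ω F (p ++ s) D := by
  induction p generalizing F with
  | nil =>
    have h : F = A := hp
    rw [h]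
    exact hs
  | cons X p ih =>
    exact ⟨hp.1, ih hp.2⟩

theorem isFl_append : IsFl Ω F (p ++ s) D ↔ ∃ A, IsFl Ω F p A ∧ IsFl Ω A s D := by
  constructor
  · intro h
    induction p generalizing F with
    | nil => exact ⟨F, rfl, h⟩
    | cons X p ih =>
      have h' : Cov Ω F X ∧ IsFl Ω X (p ++ s) D := h
      obtain ⟨A, h1, h2⟩ := ih h'.2
      exact ⟨A, ⟨h'.1, h1⟩, h2⟩
  · rintro ⟨A, h1, h2⟩
    exact h1.append h2

theorem IsFl.subset (h : IsFl Ω F l D) : F ⊆ D := by
  induction l generalizing F with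
  | nil =>
    have h' : F = D := h
    rw [h']
  | cons X l ih =>
    exact h.1.2.2.1.trans (ih h.2)

theorem IsFl.flat (hF : Ω.IsFlat F) (h : IsFl Ω F l D) : Ω.IsFlat D := by
  induction l generalizing F with
  | nil =>
    have h' : F = D := h
    rwa [← h']
  | cons X l ih =>
    exact ih h.1.2.1 h.2

theorem IsFl.rk (h : IsFl Ω F l D) : Ω.eRk D = Ω.eRk F + l.length := by
  induction l generalizing F with
  | nil =>
    have h' : F = D := h
    rw [h']
    simp
  | cons X l ih =>
    rw [ih h.2, h.1.2.2.2, List.length_cons]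
    push_cast
    rw [add_assoc, add_comm (1 : ℕ∞)]

theorem IsFl.length_eq [Finite E] (h : IsFl Ω F l D) {n : ℕ} (hrk : Ω.eRk D = Ω.eRk F + n) :
    l.length = n := by
  have h1 := h.rk
  rw [hrk] at h1
  have h2 : Ω.eRk F ≠ ⊤ :=
    ((Ω.eRk_le_encard F).trans_lt (Set.toFinite F).encard_lt_top).ne
  obtain ⟨r, hr⟩ := ENat.ne_top_iff_exists.1 h2
  rw [← hr] at h1
  have h3 : r + n = r + l.length := by exact_mod_cast h1
  omega

theorem IsFl.last (h : IsFl Ω F l D) (hl : l ≠ []) :
    ∃ p A, l = p ++ [D] ∧ IsFl Ω F p A ∧ Cov Ω A D := by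
  rcases List.eq_nil_or_concat l with h0 | ⟨p, X, rfl⟩
  · exact absurd h0 hl
  · rw [List.concat_eq_append] at h ⊢
    obtain ⟨A, h1, h2⟩ := isFl_append.1 h
    have h3 : Cov Ω A X ∧ X = D := h2
    obtain ⟨h4, rfl⟩ := h3
    exact ⟨p, A, rfl, h1, h4⟩

theorem cov_rk_two {P : Set E} (h1 : Cov Ω F P) (h2 : Cov Ω P A) : Ω.eRk A = Ω.eRk F + 2 := by
  rw [h2.2.2.2, h1.2.2.2, add_assoc, one_add_one_eq_two]

end

section

variable {E : Type*} [Fintype E] {Ω : Matroid E} {k : Type*} [Field k] {G D F P : Set E}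
  {ζ : List (Set E) → k}

theorem CycAll.suffix (h : CycAll Ω G D ζ) {s : List (Set E)} (hs : IsFl Ω F s D) :
    CycAll Ω G F (fun p => ζ (p ++ s)) := by
  intro A B p s' hp hA hB hAB hrk hs'
  have h1 := h A B p (s' ++ s) hp hA hB hAB hrk (hs'.append hs)
  simp only [List.append_assoc, List.cons_append]
  exact h1

theorem CycAll.cons (h : CycAll Ω G D ζ) (hP : Cov Ω G P) :
    CycAll Ω P D (fun s => ζ (P :: s)) := by
  intro A B p s hp hA hB hAB hrk hs
  exact h A B (P :: p) s ⟨hP, hp⟩ hA hB hAB hrk hs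

end

end Pool.Agent.Q2
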