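import Pool.Agent.WD.Bridge

/-!
The toric ideal has no non-zero homogeneous elements of degree at most one.

Proof of `deg_le_one`. If `n = 0` then `f = C c` (`MvPolynomial.IsHomogeneous`, `totalDegree_eq_zero_iff_eq_C` or
`homogeneousComponent_zero`), `baseHom K M (C c) = C c`, so `c = 0`. If `n = 1`: let `d` be in the support of `f`; `d` has
degree one, so `d = Finsupp.single B 1`. The map `expo M` (see `H94/Toric`, `WD/ToricConn`,
`baseHom_monomial`) sends `Finsupp.single B 1` to the indicator function of `B`, so it is injective on the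
monomials of degree one, and `baseHom K M f = ∑ d ∈ f.support, monomial (expo M d) (f.coeff d)`; the coefficient at
`expo M (single B 1)` is `f.coeff (single B 1)`. It is zero, because `f` is in the kernel.
(Alternatively: `f = ∑ B ∈ s, C (c B) * X B`, and look at the coefficient at `∑ e ∈ B, single e 1`.)

Proof of `toric_quad`: `h` says that the ideal is generated by its homogeneous elements of degree at most
two; those of degree at most one are zero by `deg_le_one`, so they are in the span of those of degree
two (`Ideal.span_le`, `Submodule.zero_mem`); the other inclusion is clear.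
-/

set_option autoImplicit false

namespace Pool.Agent.Q2

open MvPolynomial Pool.Agent.H94 Pool.Agent.WD

variable {α : Type*} {K : Type*} [Field K]

private theorem expo_single (M : Matroid α) (B : Bases M) :
    expo M (Finsupp.single B 1) = ∑ e ∈ B.1, Finsupp.single e 1 := by
  unfold expo
  rw [Finsupp.sum_single_index (by rw [zero_smul]), one_smul]

private theorem ind_apply [DecidableEq α] (B : Finset α) (e : α) :
    (∑ x ∈ B, (Finsupp.single x 1 : α →₀ ℕ)) e = if e ∈ B then 1 else 0 := by
  rw [Finsupp.finsetSum_apply]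
  simp only [Finsupp.single_apply]
  rw [Finset.sum_ite_eq' B e]

private theorem ind_inj {B B' : Finset α}
    (h : (∑ x ∈ B, (Finsupp.single x 1 : α →₀ ℕ)) = ∑ x ∈ B', Finsupp.single x 1) : B = B' := by
  classical
  ext e
  have h1 := DFunLike.congr_fun h e
  rw [ind_apply, ind_apply] at h1
  by_cases h2 : e ∈ B <;> by_cases h3 : e ∈ B' <;> simp_all

/-- monomials of degree at most one -/
private theorem mono_cases {β : Type*} {u : β →₀ ℕ} {n : ℕ} (hn : n ≤ 1) (hu : u.degree = n) :
    (n = 0 ∧ u = 0) ∨ ∃ B, u = Finsupp.single B 1 := by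
  classical
  rcases Nat.le_one_iff_eq_zero_or_eq_one.1 hn with rfl | rfl
  · left
    exact ⟨rfl, (Finsupp.degree_eq_zero_iff u).1 hu⟩
  · right
    have hne : u ≠ 0 := by
      rintro rfl
      simp at hu
    obtain ⟨B, hB⟩ := Finsupp.support_nonempty_iff.2 hne
    refine ⟨B, ?_⟩
    have h1 : Finsupp.single B 1 ≤ u := by
      rw [Finsupp.single_le_iff]
      exact Nat.one_le_iff_ne_zero.2 (Finsupp.mem_support_iff.1 hB)
    obtain ⟨w, hw⟩ := le_iff_exists_add.1 h1
    have h2 : w.degree = 0 := by
      rw [hw, map_add, Finsupp.degree_single] at hu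
      omega
    rw [(Finsupp.degree_eq_zero_iff w).1 h2, add_zero] at hw
    exact hw

private theorem expo_inj (M : Matroid α) {n : ℕ} (hn : n ≤ 1) {u w : Bases M →₀ ℕ}
    (hu : u.degree = n) (hw : w.degree = n) (h : expo M u = expo M w) : u = w := by
  rcases mono_cases hn hu with ⟨h0, rfl⟩ | ⟨B, rfl⟩
  · rw [h0] at hw
    exact ((Finsupp.degree_eq_zero_iff w).1 hw).symm
  · rcases mono_cases hn hw with ⟨h0, rfl⟩ | ⟨B', rfl⟩
    · rw [h0] at hu
      exact (Finsupp.degree_eq_zero_iff _).1 hu
    · rw [expo_single, expo_single] at h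
      rw [Subtype.ext (ind_inj h)]

theorem deg_le_one (M : Matroid α) {f : MvPolynomial (Bases M) K} (hf : f ∈ toricIdeal K M)
    {n : ℕ} (hn : n ≤ 1) (hh : f.IsHomogeneous n) : f = 0 := by
  classical
  have hdeg : ∀ u ∈ f.support, u.degree = n := by
    intro u hu
    have h1 := hh (MvPolynomial.mem_support_iff.1 hu)
    rw [Finsupp.degree_eq_weight_one]
    exact h1
  have h0 : baseHom K M f = 0 := hf
  have h1 : baseHom K M f = ∑ u ∈ f.support, monomial (expo M u) (coeff u f) := by
    conv_lhs => rw [← support_sum_monomial_coeff f]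
    rw [map_sum]
    exact Finset.sum_congr rfl fun u _ => baseHom_monomial M u _
  by_contra hne
  obtain ⟨u0, hu0⟩ := MvPolynomial.support_nonempty.2 hne
  have h2 : coeff (expo M u0) (baseHom K M f) = coeff u0 f := by
    rw [h1, coeff_sum, Finset.sum_eq_single u0]
    · rw [coeff_monomial, if_pos rfl]
    · intro u hu hne'
      rw [coeff_monomial, if_neg]
      intro h3
      exact hne' (expo_inj M hn (hdeg u hu) (hdeg u0 hu0) h3)
    · intro h3
      exact absurd hu0 h3
  rw [h0, coeff_zero] at h2
  exact MvPolynomial.mem_support_iff.1 hu0 h2.symm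

theorem toric_quad (M : Matroid α)
    (h : toricIdeal K M = Ideal.span {f | f ∈ toricIdeal K M ∧ ∃ n ≤ 2, f.IsHomogeneous n}) :
    toricIdeal K M = Ideal.span {f | f ∈ toricIdeal K M ∧ f.IsHomogeneous 2} := by
  apply le_antisymm
  · conv_lhs => rw [h]
    rw [Ideal.span_le]
    rintro f ⟨hf, n, hn, hh⟩
    by_cases h2 : n ≤ 1
    · rw [deg_le_one M hf h2 hh]
      exact Submodule.zero_mem _
    · have h3 : n = 2 := by omega
      subst h3
      exact Ideal.subset_span ⟨hf, hh⟩
  · rw [Ideal.span_le]
    rintro f ⟨hf, _⟩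
    exact hf

end Pool.Agent.Q2
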