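import Pool.Agent.W3.P2a

/-!
States adapted to a line and two of its points; relations which vanish on given points.

Proofs.
* `exists_state_pts`: let `e ∈ P1 \ F0` (`Ω.eRk P1 = Ω.eRk F0 + 1`, so `P1 ≠ F0`). `e ∉ F1` by
  `Fo.cov_inter` (W3/Forms; points `P1` and `F1`, `e ∈ P1 \ F0`, so `e ∉ F1`), and `e ∈ F2`. Let `s0` be a
  state adapted to `F0, F1, F2` (`exists_ad`, W3/AdCor). `state_with` (W3/Mix) for `Cov F1 F2`, `s0`,
  `e ∈ F2 \ F1`, gives `t` adapted to `F1`, `F2` with `e ∈ t.B`, `AgreeOff s0 t (F2 \ F1)`. By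
  `ad_of_agree` (`G := F0 ⊆ F1`) `t` is adapted to `F0`.
* `both_van`: `classes` (W3/Classes) for `H := P1`: the second case is excluded because of `e`. In the
  first case use `Fo.HF_van` (W3/Forms) for the colour `c`.
* `one_van`: `classes` for `H`: in the first case any `c0` (there is one, `2 ≤ q`), in the second case
  the `c0` given there; `Fo.HF_van`.
* `exists_other`: let `e ∈ F2 \ F1` and `H := Ω.closure (insert e F0)`: a flat of rank `Ω.eRk F0 + 1`,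
  contained in `F2` and not equal to `F1`.
* `th3`: Let `s` be the state of `exists_state_pts` for `F1 := P1`, `P1 := P2`, `c0` the colour of
  `one_van` for `H := P3`; choose `c ≠ c0` (`2 ≤ q`). `HF s c` is contained in `van P2` (`both_van`), in `van P3`
  (`one_van`), and in `Rel` (`HF_sub`); so the span of `HF s c` is contained in
  `Rel ⊓ (van P2 ⊓ van P3)`. Use `span_HF`.
-/

set_option autoImplicit false

namespace Pool.Agent.Q2

open Pool.Agent.W3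

variable {E : Type*} [Fintype E] {N Ω : Matroid E} {q : ℕ} {k T : Type*} [Field k]
  [AddCommGroup T] [Module k T] {v : E → T}

omit [Fintype E] in
private theorem cov_exists [Finite E] {F G : Set E} (h : Cov Ω F G) : ∃ e, e ∈ G \ F := by
  by_contra hcon
  push Not at hcon
  have h1 : G ⊆ F := fun x hx => by_contra fun hx' => hcon x ⟨hx, hx'⟩
  have h2 : G = F := h1.antisymm h.2.2.1
  have h3 := h.2.2.2
  rw [h2] at h3
  have h4 : Ω.eRk F ≠ ⊤ := (Ω.isRkFinite_of_finite (Set.toFinite F)).eRk_lt_top.ne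
  obtain ⟨n, hn⟩ := ENat.ne_top_iff_exists.1 h4
  rw [← hn] at h3
  have h5 : n = n + 1 := by exact_mod_cast h3
  omega

theorem exists_state_pts (hc : Compl N Ω q) {F0 F1 P1 F2 : Set E} (h01 : Cov Ω F0 F1)
    (h12 : Cov Ω F1 F2) (hP0 : Cov Ω F0 P1) (hP2 : Cov Ω P1 F2) (hne : P1 ≠ F1) :
    ∃ s : St N q, Ad3 Ω F0 F1 F2 s ∧ ∃ e ∈ s.B, e ∈ P1 \ F0 := by
  obtain ⟨e, he⟩ := cov_exists hP0
  have he1 : e ∉ F1 := Fo.cov_inter hc.ground hP0 h01 (Ne.symm hne) he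
  have he2 : e ∈ F2 := hP2.2.2.1 he.1
  obtain ⟨s0, hs0, hs1, hs2⟩ := exists_ad hc h01.1 h12.1 h12.2.1 h01.2.2.1 h12.2.2.1
  obtain ⟨t, ht1, ht2, het, hag⟩ := state_with hc h12 s0 hs1 hs2 (e := e) ⟨he2, he1⟩
  exact ⟨t, ⟨ad_of_agree hc h12.2.2.1 hs1 hs2 ht1 ht2 hag hs0 (Or.inl h01.2.2.1), ht1, ht2⟩,
    e, het, he⟩

theorem both_van (hc : Compl N Ω q) (hv : IsRep k N v) {F0 F1 P1 F2 : Set E}
    (h01 : Cov Ω F0 F1) (h12 : Cov Ω F1 F2) (hP0 : Cov Ω F0 P1) (hP2 : Cov Ω P1 F2)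
    (hne : P1 ≠ F1) (s : St N q) (hs : Ad3 Ω F0 F1 F2 s) (he : ∃ e ∈ s.B, e ∈ P1 \ F0)
    (c : Fin q) {L : E → k} (hL : L ∈ HF k v Ω F0 F1 F2 s c) : L ∈ van k P1 := by
  rcases classes hc h01 h12 hP0 hP2 hne s hs.1 hs.2.1 hs.2.2 with ⟨-, h⟩ | ⟨hx, -⟩
  · exact Fo.HF_van hc hv h01 hP0 hne (fun t h0 h1 h2 hag => h t h0 h1 h2 hag c) hL
  · obtain ⟨e, heB, heP⟩ := he
    exact absurd heP (hx e heB)

theorem one_van (hc : Compl N Ω q) (hv : IsRep k N v) (hq : 2 ≤ q) {F0 F1 F2 H : Set E}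
    (h01 : Cov Ω F0 F1) (h12 : Cov Ω F1 F2) (h0H : Cov Ω F0 H) (hH2 : Cov Ω H F2)
    (hne : H ≠ F1) (s : St N q) (hs : Ad3 Ω F0 F1 F2 s) :
    ∃ c0 : Fin q, ∀ c, c ≠ c0 → ∀ L ∈ HF k v Ω F0 F1 F2 s c, L ∈ van k H := by
  rcases classes hc h01 h12 h0H hH2 hne s hs.1 hs.2.1 hs.2.2 with ⟨-, h⟩ | ⟨-, c0, h⟩
  · exact ⟨⟨0, by omega⟩, fun c _ L hL =>
      Fo.HF_van hc hv h01 h0H hne (fun t h0 h1 h2 hag => h t h0 h1 h2 hag c) hL⟩
  · exact ⟨c0, fun c hc0 L hL =>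
      Fo.HF_van hc hv h01 h0H hne (fun t h0 h1 h2 hag => h t h0 h1 h2 hag c hc0) hL⟩

omit [Fintype E] in
theorem exists_other [Finite E] (hΩ : Ω.E = Set.univ) {F0 F1 F2 : Set E} (h01 : Cov Ω F0 F1)
    (h12 : Cov Ω F1 F2) : ∃ H, Cov Ω F0 H ∧ Cov Ω H F2 ∧ H ≠ F1 := by
  obtain ⟨e, he2, he1⟩ := cov_exists h12
  have hsubE : ∀ X : Set E, X ⊆ Ω.E := by
    intro X
    rw [hΩ]
    exact Set.subset_univ X
  have he0 : e ∉ F0 := fun h => he1 (h01.2.2.1 h)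
  have hrk : Ω.eRk (insert e F0) = Ω.eRk F0 + 1 := by
    apply Matroid.eRk_insert_eq_add_one
    rw [h01.1.closure]
    exact ⟨hsubE Set.univ (Set.mem_univ e), he0⟩
  have hsub : insert e F0 ⊆ Ω.closure (insert e F0) := Ω.subset_closure _ (hsubE _)
  have hsub2 : insert e F0 ⊆ F2 :=
    Set.insert_subset he2 (h01.2.2.1.trans h12.2.2.1)
  refine ⟨Ω.closure (insert e F0), ⟨h01.1, Ω.isFlat_closure _, ?_, ?_⟩,
    ⟨Ω.isFlat_closure _, h12.2.1, ?_, ?_⟩, ?_⟩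
  · exact (Set.subset_insert _ _).trans hsub
  · rw [Matroid.eRk_closure_eq, hrk]
  · have h1 := Ω.closure_subset_closure hsub2
    rw [h12.2.1.closure] at h1
    exact h1
  · rw [Matroid.eRk_closure_eq, hrk, h12.2.2.2, h01.2.2.2]
  · intro h
    apply he1
    rw [← h]
    exact hsub (Set.mem_insert _ _)

theorem th3 (hc : Compl N Ω q) (hv : IsRep k N v) (hq : 2 ≤ q) {F0 P1 P2 P3 F2 : Set E}
    (h1 : Cov Ω F0 P1) (h1' : Cov Ω P1 F2) (h2 : Cov Ω F0 P2) (h2' : Cov Ω P2 F2)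
    (h3 : Cov Ω F0 P3) (h3' : Cov Ω P3 F2) (h12 : P2 ≠ P1) (h13 : P3 ≠ P1) :
    Rel k v ⊓ van k F0 ≤ (Rel k v ⊓ van k P1) ⊔ (Rel k v ⊓ (van k P2 ⊓ van k P3)) := by
  obtain ⟨s, hs, he⟩ := exists_state_pts hc h1 h1' h2 h2' h12
  obtain ⟨c0, hc0⟩ := one_van hc hv hq h1 h1' h3 h3' h13 s hs
  obtain ⟨c, hcc⟩ : ∃ c : Fin q, c ≠ c0 := by
    by_cases h0 : c0.val = 0
    · exact ⟨⟨1, by omega⟩, fun h => by
        have := congrArg Fin.val h
        simp only at this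
        omega⟩
    · exact ⟨⟨0, by omega⟩, fun h => by
        have := congrArg Fin.val h
        simp only at this
        omega⟩
  refine (span_HF hc hv h1 h1' s hs c).trans (sup_le_sup_left ?_ _)
  rw [Submodule.span_le]
  intro L hL
  exact ⟨(HF_sub hL).1, both_van hc hv h1 h1' h2 h2' h12 s hs he c hL, hc0 c hcc L hL⟩

end Pool.Agent.Q2
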