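import Pool.Agent.Q2.PtsForms

/-!
The form of `th3` for a set of at most two points.

`KU R U` is the set of the elements of `R` which vanish on all members of `U`.

Proof of `th_fin`. If `U = ∅` then `KU R U ⊇ R`, clear (`Submodule.subset_span`). Otherwise `U = {P2}` or
`U = {P2, P3}` (`Finset.card_le_two`-like, e.g. `Finset.card_eq_one`, `Finset.card_eq_two`,
`interval_cases`); in the first case put `P3 := P2`. Then `Rel ⊓ (van P2 ⊓ van P3)` is contained in the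
span of `KU R U`; use `th3`. (For `U = ∅`: `L ∈ Rel ⊓ van F0` is itself in `KU`.)

Proof of `red_KU`: `ml_slot` (W3/MLspan) with `U := Rel k v ⊓ van k P`, `G := KU (Rel k v ⊓ van k F0) U` and
`th_fin`.
-/

set_option autoImplicit false

namespace Pool.Agent.Q2

open Pool.Agent.W3

variable {E : Type*} [Fintype E] {N Ω : Matroid E} {q : ℕ} {k T : Type*} [Field k]
  [AddCommGroup T] [Module k T] {v : E → T}

/-- The elements of `R` which vanish on all members of `U`. -/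
def KU (R : Submodule k (E → k)) (U : Finset (Set E)) : Set (E → k) :=
  {L | L ∈ R ∧ ∀ P ∈ U, L ∈ van k P}

private theorem th_aux (hc : Compl N Ω q) (hv : IsRep k N v) (hq : 2 ≤ q) {F0 P F2 : Set E}
    (hP : P ∈ btw Ω F0 F2) {U : Finset (Set E)} {P2 P3 : Set E} (h2 : P2 ∈ btw Ω F0 F2)
    (h3 : P3 ∈ btw Ω F0 F2) (h12 : P2 ≠ P) (h13 : P3 ≠ P) (hU : ∀ Q ∈ U, Q = P2 ∨ Q = P3) :
    Rel k v ⊓ van k F0 ≤
      (Rel k v ⊓ van k P) ⊔ Submodule.span k (KU (Rel k v ⊓ van k F0) U) := by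
  classical
  have hb : ∀ Q, Q ∈ btw Ω F0 F2 → Cov Ω F0 Q ∧ Cov Ω Q F2 := by
    intro Q hQ
    unfold W3.btw at hQ
    simpa using hQ
  obtain ⟨a1, a2⟩ := hb P hP
  obtain ⟨b1, b2⟩ := hb P2 h2
  obtain ⟨c1, c2⟩ := hb P3 h3
  refine (th3 hc hv hq a1 a2 b1 b2 c1 c2 h12 h13).trans (sup_le_sup_left ?_ _)
  intro L hL
  refine Submodule.subset_span ⟨⟨hL.1, ?_⟩, ?_⟩
  · intro e he
    exact hL.2.1 e (b1.2.2.1 he)
  · intro Q hQ
    rcases hU Q hQ with rfl | rfl
    · exact hL.2.1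
    · exact hL.2.2

theorem th_fin (hc : Compl N Ω q) (hv : IsRep k N v) (hq : 2 ≤ q) {F0 P F2 : Set E}
    (hP : P ∈ btw Ω F0 F2) {U : Finset (Set E)} (hU : U ⊆ btw Ω F0 F2) (hPU : P ∉ U)
    (hcard : U.card ≤ 2) :
    Rel k v ⊓ van k F0 ≤
      (Rel k v ⊓ van k P) ⊔ Submodule.span k (KU (Rel k v ⊓ van k F0) U) := by
  classical
  have hcases : U.card = 0 ∨ U.card = 1 ∨ U.card = 2 := by omega
  rcases hcases with h | h | h
  · rw [Finset.card_eq_zero] at h
    subst h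
    intro L hL
    exact Submodule.mem_sup_right (Submodule.subset_span ⟨hL, fun Q hQ => by simp at hQ⟩)
  · obtain ⟨P2, rfl⟩ := Finset.card_eq_one.mp h
    have hm : P2 ∈ ({P2} : Finset (Set E)) := Finset.mem_singleton_self _
    have hne : P2 ≠ P := fun h => hPU (h ▸ hm)
    exact th_aux hc hv hq hP (hU hm) (hU hm) hne hne (fun Q hQ => Or.inl (Finset.mem_singleton.mp hQ))
  · obtain ⟨P2, P3, _, rfl⟩ := Finset.card_eq_two.mp h
    have hm : P2 ∈ ({P2, P3} : Finset (Set E)) := by simp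
    have hm' : P3 ∈ ({P2, P3} : Finset (Set E)) := by simp
    have hne : P2 ≠ P := fun h => hPU (h ▸ hm)
    have hne' : P3 ≠ P := fun h => hPU (h ▸ hm')
    exact th_aux hc hv hq hP (hU hm) (hU hm') hne hne' (fun Q hQ => by simpa using hQ)

theorem red_KU {ι : Type*} [Fintype ι] [DecidableEq ι] (hc : Compl N Ω q) (hv : IsRep k N v)
    (hq : 2 ≤ q) {F0 P F2 : Set E} (hP : P ∈ btw Ω F0 F2) {U : Finset (Set E)}
    (hU : U ⊆ btw Ω F0 F2) (hPU : P ∉ U) (hcard : U.card ≤ 2) (f : ML k E ι) (y : ι → E → k)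
    (s : ι) (hy : y s ∈ Rel k v ⊓ van k F0)
    (h1 : ∀ L ∈ Rel k v ⊓ van k P, f (Function.update y s L) = 0)
    (h2 : ∀ L ∈ KU (Rel k v ⊓ van k F0) U, f (Function.update y s L) = 0) : f y = 0 :=
  ml_slot f y s _ _ h1 h2 (th_fin hc hv hq hP hU hPU hcard hy)

end Pool.Agent.Q2
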