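import Pool.Agent.W3.AdCor

/-!
The function `hf N q A = |A| + q r_N(Aᶜ) - q r(N)`.

Proofs.
* `rN N X` is the rank of `X` in `N` as an integer (`E` is finite, so all ranks are finite).
* `hf_sub`: `|A ∪ B| + |A ∩ B| = |A| + |B|` and submodularity of the rank for `Aᶜ`, `Bᶜ`
  (`Matroid.eRk_submod` or `eRk_inter_add_eRk_union_le`), `(A ∪ B)ᶜ = Aᶜ ∩ Bᶜ`, `(A ∩ B)ᶜ = Aᶜ ∪ Bᶜ`.
* `hf_ge`: let `I0` be a basis of `A` in `Ω`, extended to a base `B` of `Ω`; `B ∩ A = I0` (as in `exists_ad`, file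
  W3/AdCor), so `|B ∩ A| = rO Ω A`. `hc.base B` gives a state `s`. `card_split`: `|A| = |B ∩ A| + ∑ |s.A l ∩ A|`;
  `|s.A l ∩ A| = |s.A l| - |s.A l \ A| ≥ r(N) - r_N(Aᶜ)`, because `s.A l` is a base of `N` and
  `s.A l \ A` is an independent subset of `Aᶜ`.
* `hf_flat`: let `s` be a state adapted to `F` (`exists_ad` with `F, F, F`). `isBasis_compl`: `s.A l \ F` is a basis
  of `Fᶜ`, so `|s.A l ∩ F| = r(N) - r_N(Fᶜ)`; `|s.B ∩ F| = rO Ω F`. `card_split`.
* `hf_mod`: `hf N q A - |A| = q * (r_N(Aᶜ) - r(N))`.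
* `hf_mono` is not needed.
-/

set_option autoImplicit false

namespace Pool.Agent.Q2

open Pool.Agent.W3 Set

variable {E : Type*} {N Ω : Matroid E} {q : ℕ}

/-- The rank as an integer. -/
noncomputable def rN (N : Matroid E) (X : Set E) : ℤ := ((N.eRk X).toNat : ℤ)

/-- The function `|A| + q r_N(Aᶜ) - q r(N)`. -/
noncomputable def hf (N : Matroid E) (q : ℕ) (A : Set E) : ℤ :=
  (A.ncard : ℤ) + q * rN N Aᶜ - q * rN N univ

theorem rN_cast [Finite E] (X : Set E) : ((N.eRk X).toNat : ℕ∞) = N.eRk X := by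
  apply ENat.natCast_toNat
  have h1 : N.eRk X ≤ X.encard := N.eRk_le_encard X
  have h2 : X.encard < ⊤ := (Set.toFinite X).encard_lt_top
  exact (h1.trans_lt h2).ne

theorem rN_mono [Finite E] {X Y : Set E} (h : X ⊆ Y) : rN N X ≤ rN N Y := by
  have h1 := N.eRk_mono h
  rw [← rN_cast X, ← rN_cast Y] at h1
  unfold rN
  exact_mod_cast h1

theorem rN_cov [Finite E] {X Y : Set E} {n : ℕ} (h : N.eRk Y = N.eRk X + n) :
    rN N Y = rN N X + n := by
  rw [← rN_cast X, ← rN_cast Y] at h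
  unfold rN
  exact_mod_cast h

private theorem rN_sub [Finite E] (X Y : Set E) :
    rN N (X ∩ Y) + rN N (X ∪ Y) ≤ rN N X + rN N Y := by
  have h1 := N.eRk_submod X Y
  rw [← rN_cast X, ← rN_cast Y, ← rN_cast (X ∩ Y), ← rN_cast (X ∪ Y)] at h1
  unfold rN
  exact_mod_cast h1

/-- the size of a basis -/
private theorem rN_basis [Finite E] {I X : Set E} (h : N.IsBasis I X) : (I.ncard : ℤ) = rN N X := by
  have h1 := h.encard_eq_eRk
  rw [← rN_cast X, ← Set.Finite.cast_ncard_eq (Set.toFinite I)] at h1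
  unfold rN
  exact_mod_cast h1

private theorem rN_indep [Finite E] {I X : Set E} (h : N.Indep I) (hX : I ⊆ X) :
    (I.ncard : ℤ) ≤ rN N X := by
  have h1 := h.encard_le_eRk_of_subset hX
  rw [← rN_cast X, ← Set.Finite.cast_ncard_eq (Set.toFinite I)] at h1
  unfold rN
  exact_mod_cast h1

theorem hf_sub [Finite E] (A B : Set E) :
    hf N q (A ∪ B) + hf N q (A ∩ B) ≤ hf N q A + hf N q B := by
  have h1 : ((A ∪ B).ncard : ℤ) + (A ∩ B).ncard = A.ncard + B.ncard := by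
    exact_mod_cast Set.ncard_union_add_ncard_inter A B (Set.toFinite _) (Set.toFinite _)
  have h2 := rN_sub (N := N) Aᶜ Bᶜ
  have e1 : Aᶜ ∩ Bᶜ = (A ∪ B)ᶜ := (Set.compl_union A B).symm
  have e2 : Aᶜ ∪ Bᶜ = (A ∩ B)ᶜ := (Set.compl_inter A B).symm
  rw [e1, e2] at h2
  have h3 := mul_le_mul_of_nonneg_left h2 (Int.natCast_nonneg q)
  unfold hf
  linarith

/-- the part of a class inside `X` -/
private theorem part_eq [Finite E] (hc : Compl N Ω q) (s : St N q) (X : Set E) (l : Fin q) :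
    ((s.A l ∩ X).ncard : ℤ) = rN N univ - (s.A l \ X).ncard := by
  have h1 : ((s.A l ∩ X).ncard : ℤ) + (s.A l \ X).ncard = (s.A l).ncard := by
    exact_mod_cast Set.ncard_inter_add_ncard_sdiff_eq_ncard (s.A l) X (Set.toFinite _)
  have h2 : N.IsBasis (s.A l) univ := by
    rw [← hc.groundN]
    exact (s.st.1.1 l).isBasis_ground
  have h3 := rN_basis h2
  linarith

theorem hf_ge [Finite E] (hc : Compl N Ω q) (A : Set E) : rN Ω A ≤ hf N q A := by
  have hsub : A ⊆ Ω.E := by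
    rw [hc.ground]
    exact Set.subset_univ A
  obtain ⟨I0, hI0⟩ := Ω.exists_isBasis A hsub
  obtain ⟨B, hB, hIB⟩ := hI0.indep.exists_isBase_superset
  obtain ⟨A', hA'⟩ := (hc.base B).1 hB
  have hBA : Ω.IsBasis (B ∩ A) A := by
    have h := hI0.eq_of_subset_indep (hB.indep.subset Set.inter_subset_left)
      (Set.subset_inter hIB hI0.subset) (Set.inter_subset_right : B ∩ A ⊆ A)
    rw [← h]
    exact hI0
  obtain ⟨s, hs⟩ : ∃ s : St N q, s.B = B := ⟨⟨B, A', hA'⟩, rfl⟩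
  have h1 := rN_basis hBA
  have h2 : (A.ncard : ℤ) = (s.B ∩ A).ncard + ∑ l, ((s.A l ∩ A).ncard : ℤ) := by
    exact_mod_cast card_split s A
  have h3 : ∑ _l : Fin q, (rN N univ - rN N Aᶜ) ≤ ∑ l, ((s.A l ∩ A).ncard : ℤ) := by
    refine Finset.sum_le_sum fun l _ => ?_
    rw [part_eq hc s A l]
    have h4 := rN_indep (N := N) (I := s.A l \ A) (X := Aᶜ)
      ((s.st.1.1 l).indep.subset Set.sdiff_subset) (fun _ hx => hx.2)
    linarith
  rw [Finset.sum_const, Finset.card_univ, Fintype.card_fin, nsmul_eq_mul] at h3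
  rw [hs] at h2
  unfold hf
  linarith

theorem hf_flat [Finite E] (hc : Compl N Ω q) {F : Set E} (hF : Ω.IsFlat F) :
    hf N q F = rN Ω F := by
  obtain ⟨s, hs, _, _⟩ := exists_ad hc hF hF hF (subset_refl F) (subset_refl F)
  have h1 := rN_basis hs.2
  have h2 : (F.ncard : ℤ) = (s.B ∩ F).ncard + ∑ l, ((s.A l ∩ F).ncard : ℤ) := by
    exact_mod_cast card_split s F
  have h3 : ∑ l, ((s.A l ∩ F).ncard : ℤ) = ∑ _l : Fin q, (rN N univ - rN N Fᶜ) := by
    refine Finset.sum_congr rfl fun l _ => ?_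
    rw [part_eq hc s F l, rN_basis (isBasis_compl hc s hs l)]
  rw [Finset.sum_const, Finset.card_univ, Fintype.card_fin, nsmul_eq_mul] at h3
  unfold hf
  linarith

theorem hf_mod (A : Set E) : ∃ c : ℤ, hf N q A = A.ncard + q * c := by
  refine ⟨rN N Aᶜ - rN N univ, ?_⟩
  unfold hf
  ring

end Pool.Agent.Q2
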