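import Pool.Agent.Q2.Core2
import Pool.Agent.W3.LiftRep

/-!
Tuples of at least three bases of a linear matroid are connected.

Proof of `core_of_rep2`. Let `N' := N.comap (Subtype.val : S → β)`, a matroid on the finite type `↥S`.
`N'.E = univ`, because every element of `S` is in a base `P k ⊆ N.E`. `IsRep k N' (fun x => v x)`:
`N'.Indep I ↔ N.Indep (val '' I)` (`Matroid.comap_indep_iff`, `val` is injective) and
`LinearIndepOn k (v ∘ val) I ↔ LinearIndepOn k v (val '' I)`. For `X ⊆ S` which is a base of `N` the set
`val ⁻¹' X` is a base of `N'` and conversely the image of a base of `N'` is a base of `N`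
(`N'` is the restriction of `N` to `S`, and `S` contains a base of `N`; e.g.
`Matroid.comap_isBase_iff`). So `P' k := val ⁻¹' P k`, `Q'` are partitions of `univ`; `core2` connects
them; map the chain back with `R ↦ fun k => val '' (R k)` (`Relation.ReflTransGen.lift`), and
`val '' (val ⁻¹' P k) = P k` since `P k ⊆ S`.

Proof of `shareConn_rep2`: `shareConn_of_core` with `d = 2` and `core_of_rep2` for
`N := M.comap Prod.fst`, `β := α × ℕ`, `v' x := v x.1`: `N.Indep I ↔ M.Indep (fst '' I) ∧ InjOn fst I`,
and `LinearIndepOn k (v ∘ fst) I ↔ LinearIndepOn k v (fst '' I) ∧ InjOn fst I`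
(`LinearIndepOn.injOn`..; nonzero vectors are not needed: two equal vectors are dependent).
If `fst '' I` is not contained in `M.E` then it is not independent, so `hv` is only required for
subsets of the ground set, and the vectors of the elements outside `M.E` may be taken to be zero
(first replace `v` by the function which is zero outside `M.E`).
The size of `P 0` is that of its image, a base of `M` (`WD.comap_base_iff`).
-/

set_option autoImplicit false

namespace Pool.Agent.Q2

open Finset Pool.Agent.WD Pool.Agent.W3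

theorem core_of_rep2 {β k W : Type*} [Field k] [AddCommGroup W] [Module k W] {N : Matroid β}
    {v : β → W} (hv : ∀ I : Set β, N.Indep I ↔ LinearIndepOn k v I) {S : Set β} (hS : S.Finite)
    {q : ℕ} (hq : 2 ≤ q) (P Q : Fin (q + 1) → Set β)
    (hk : (((P 0).ncard).factorial : k) ≠ 0) (hP : IsPartn N S P) (hQ : IsPartn N S Q) :
    Relation.ReflTransGen (Share N S) P Q := by
  classical
  have : Fintype S := hS.fintype
  have hSE : S ⊆ N.E := by
    intro x hx
    rw [← hP.2, Set.mem_iUnion] at hx
    obtain ⟨l, hl⟩ := hx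
    exact (hP.1.1 l).subset_ground hl
  have hsub : ∀ {R : Fin (q + 1) → Set β}, IsPartn N S R → ∀ l, R l ⊆ S := by
    intro R hR l
    rw [← hR.2]
    exact Set.subset_iUnion R l
  set N' : Matroid S := N.comap (Subtype.val : S → β) with hN'
  have hbase : ∀ B : Set S, N'.IsBase B ↔ N.IsBase (Subtype.val '' B) :=
    LRep.base_sub (hP.1.1 0) (hsub hP 0) hSE
  have hpre : ∀ {X : Set β}, X ⊆ S → Subtype.val '' ((Subtype.val : S → β) ⁻¹' X) = X := by
    intro X hX
    rw [Subtype.image_preimage_coe]
    exact Set.inter_eq_right.2 hX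
  have hgr : N'.E = Set.univ := by
    rw [hN', Matroid.comap_ground_eq]
    ext x
    simp only [Set.mem_preimage, Set.mem_univ, iff_true]
    exact hSE x.2
  have hrep : IsRep k N' (fun x : S => v x) := by
    intro I
    rw [hN', Matroid.comap_indep_iff, hv,
      LRep.linOn_image (g := (Subtype.val : S → β)) Subtype.val_injective.injOn v]
    exact ⟨fun h => h.1, fun h => ⟨h, Subtype.val_injective.injOn⟩⟩
  have hpart : ∀ {R : Fin (q + 1) → Set β}, IsPartn N S R →
      IsPartn N' Set.univ (fun l => (Subtype.val : S → β) ⁻¹' R l) := by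
    intro R hR
    refine ⟨⟨fun l => ?_, ?_⟩, ?_⟩
    · rw [hbase, hpre (hsub hR l)]
      exact hR.1.1 l
    · intro a b hab
      exact (hR.1.2 hab).preimage _
    · rw [← Set.preimage_iUnion, hR.2]
      ext x
      simp
  have hback : ∀ {R : Fin (q + 1) → Set S}, IsPartn N' Set.univ R →
      IsPartn N S (fun l => (Subtype.val : S → β) '' R l) := by
    intro R hR
    refine ⟨⟨fun l => (hbase _).1 (hR.1.1 l), ?_⟩, ?_⟩
    · intro a b hab
      exact (Set.disjoint_image_iff Subtype.val_injective).2 (hR.1.2 hab)
    · rw [← Set.image_iUnion, hR.2, Set.image_univ, Subtype.range_coe]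
  have hk' : (((((Subtype.val : S → β) ⁻¹' P 0)).ncard).factorial : k) ≠ 0 := by
    have : ((Subtype.val : S → β) ⁻¹' P 0).ncard = (P 0).ncard := by
      rw [← Set.ncard_image_of_injective _ Subtype.val_injective, hpre (hsub hP 0)]
    rw [this]
    exact hk
  have h1 := core2 hgr hrep hq (fun l => (Subtype.val : S → β) ⁻¹' P l)
    (fun l => (Subtype.val : S → β) ⁻¹' Q l) hk' (hpart hP) (hpart hQ)
  have hmono : ∀ R R' : Fin (q + 1) → Set S, Share N' Set.univ R R' →
      Share N S (fun l => (Subtype.val : S → β) '' R l)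
        (fun l => (Subtype.val : S → β) '' R' l) := by
    rintro R R' ⟨a1, a2, i, j, hij⟩
    exact ⟨hback a1, hback a2, i, j, congrArg (fun X : Set S => (Subtype.val : S → β) '' X) hij⟩
  have h2 : Relation.ReflTransGen (Share N S)
      (fun l => (Subtype.val : S → β) '' ((Subtype.val : S → β) ⁻¹' P l))
      (fun l => (Subtype.val : S → β) '' ((Subtype.val : S → β) ⁻¹' Q l)) :=
    Relation.ReflTransGen.lift (r := Share N' Set.univ) (p := Share N S)
      (fun (R : Fin (q + 1) → Set S) l => (Subtype.val : S → β) '' R l) hmono _ _ h1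
  have e : ∀ {R : Fin (q + 1) → Set β}, IsPartn N S R →
      (fun l => (Subtype.val : S → β) '' ((Subtype.val : S → β) ⁻¹' R l)) = R := by
    intro R hR
    funext l
    exact hpre (hsub hR l)
  rw [e hP, e hQ] at h2
  exact h2

theorem shareConn_rep2 {α k W : Type*} [DecidableEq α] [Field k] [AddCommGroup W] [Module k W]
    {M : Matroid α} [M.RankFinite] (v : α → W)
    (hv : ∀ I ⊆ M.E, M.Indep I ↔ LinearIndepOn k v I)
    (hk : ∀ B, M.IsBase B → ((B.ncard).factorial : k) ≠ 0) :
    ShareConn (fun B : Finset α => M.IsBase (B : Set α)) 2 := by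
  classical
  obtain ⟨v', hv'⟩ : ∃ v' : α → W, v' = fun x => if x ∈ M.E then v x else 0 := ⟨_, rfl⟩
  have hvv : ∀ I : Set α, M.Indep I ↔ LinearIndepOn k v' I := by
    intro I
    have hcong : I ⊆ M.E → (LinearIndepOn k v I ↔ LinearIndepOn k v' I) := by
      intro hI
      apply linearIndepOn_congr
      intro x hx
      rw [hv']
      simp only
      rw [if_pos (hI hx)]
    constructor
    · intro h
      rw [← hcong h.subset_ground, ← hv I h.subset_ground]
      exact h
    · intro h
      have hI : I ⊆ M.E := by
        intro x hx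
        by_contra hxE
        apply h.ne_zero hx
        rw [hv']
        simp only
        rw [if_neg hxE]
      rw [hv I hI, hcong hI]
      exact h
  refine shareConn_of_core (d := 2) ?_
  intro q hq S hS P Q hP hQ
  refine core_of_rep2 (k := k) (v := fun x : α × ℕ => v' x.1) ?_ hS hq P Q ?_ hP hQ
  · intro I
    rw [Matroid.comap_indep_iff, hvv]
    constructor
    · rintro ⟨h1, h2⟩
      exact (LRep.linOn_image (g := (Prod.fst : α × ℕ → α)) h2 v').2 h1
    · intro h
      have h2 : Set.InjOn (Prod.fst : α × ℕ → α) I := by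
        intro x hx y hy hxy
        refine h.injOn hx hy ?_
        show v' x.1 = v' y.1
        rw [hxy]
      exact ⟨(LRep.linOn_image (g := (Prod.fst : α × ℕ → α)) h2 v').1 h, h2⟩
  · obtain ⟨h1, h2⟩ := (comap_base_iff (P 0)).1 (hP.1.1 0)
    rw [← Set.InjOn.ncard_image h2]
    exact hk _ h1

end Pool.Agent.Q2
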