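import Pool.Agent.Q2.LiftRep2
import Pool.Agent.Q2.DegOne
import Pool.Agent.WD.Dual

set_option autoImplicit false

namespace Pool.Agent.Q2

open Pool.Agent.H94 Pool.Agent.WD

theorem main2 {α : Type*} (K : Type*) [Field K] (M : Matroid α) [M.Finite] [M.RankPos]
    {k W : Type*} [Field k] [AddCommGroup W] [Module k W] (v : α → W) (r : ℕ)
    (hk : (r.factorial : k) ≠ 0)
    (h : (M.eRank = r ∧ ∀ I ⊆ M.E, M.Indep I ↔ LinearIndepOn k v I) ∨
      (M✶.eRank = r ∧ ∀ I ⊆ M.E, M✶.Indep I ↔ LinearIndepOn k v I)) :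
    toricIdeal K M = Ideal.span {f | f ∈ toricIdeal K M ∧ f.IsHomogeneous 2} := by
  classical
  refine toric_quad M ?_
  rcases h with ⟨hr, hv⟩ | ⟨hr, hv⟩
  · refine toric_of_shareConn M (shareConn_rep2 v hv ?_)
    intro B hB
    have h1 : B.ncard = r := by
      have := hB.encard_eq_eRank
      rw [hr] at this
      rw [Set.ncard, this]
      rfl
    rwa [h1]
  · refine toric_of_shareConn M (shareConn_of_dual M (shareConn_rep2 v hv ?_))
    intro B hB
    have h1 : B.ncard = r := by
      have := hB.encard_eq_eRank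
      rw [hr] at this
      rw [Set.ncard, this]
      rfl
    rwa [h1]

end Pool.Agent.Q2
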