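import Pool.Agent.Q2.FlLem

/-!
A cycle on the flags from `P` to `D` which vanishes on the flags whose last but one member does not
contain `X` (a fixed subset of `D` not contained in `P`) is zero.

Proof. (1) Every flag `l` from `P` to `D` can be written `l = p ++ F :: s` with `IsFl P p A`, `¬ X ⊆ A`,
`Cov A F`, `X ⊆ F`, `IsFl F s D` (induction on `l`: `P` does not contain `X`, so `l` is not empty, since
`X ⊆ D`; if the first member contains `X` take `p = []`, otherwise apply the induction hypothesis to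
the tail).
(2) Induction on `s.length`: for all `p, A, F, s` as in (1), `ζ (p ++ F :: s) = 0`. If `s = []` then `F = D`,
use `h0` with `H := A`. If `s = B :: s'`: by `hcyc` with `A`, `B`, `p`, `s'` the sum over
`H ∈ btw Ω A B` of `ζ (p ++ H :: B :: s')` is zero (`Ω.IsFlat A` is part of `Cov A F`;
`Ω.eRk B = Ω.eRk A + 2`). `F ∈ btw Ω A B`. For `H ∈ btw Ω A B`, `H ≠ F`: `¬ X ⊆ H`, because otherwise
`X ⊆ H ∩ F ⊆ A` (`Fo.cov_inter` in W3/Forms: `y ∈ F \ A` implies `y ∉ H`). And `X ⊆ F ⊆ B`. So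
`ζ ((p ++ [H]) ++ B :: s') = 0` by the induction hypothesis (`IsFl P (p ++ [H]) H`, `Cov H B`,
`IsFl B s' D`). So the term of `F` is zero (`Finset.sum_eq_single_of_mem`).
-/

set_option autoImplicit false

namespace Pool.Agent.Q2

open Pool.Agent.W3

variable {E : Type*} [Fintype E] {Ω : Matroid E} {k : Type*} [Field k]

theorem opp (hΩ : Ω.E = Set.univ) {P D X : Set E} (hPX : ¬ X ⊆ P) (hXD : X ⊆ D)
    {ζ : List (Set E) → k} (hcyc : CycAll Ω P D ζ)
    (h0 : ∀ p H, IsFl Ω P p H → Cov Ω H D → ¬ X ⊆ H → ζ (p ++ [D]) = 0) :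
    ∀ l, IsFl Ω P l D → ζ l = 0 := by
  have hdec : ∀ (l : List (Set E)) (F : Set E), ¬ X ⊆ F → IsFl Ω F l D →
      ∃ p A G s, l = p ++ G :: s ∧ IsFl Ω F p A ∧ ¬ X ⊆ A ∧ Cov Ω A G ∧ X ⊆ G ∧
        IsFl Ω G s D := by
    intro l
    induction l with
    | nil =>
      intro F hF h
      have hFD : F = D := h
      rw [hFD] at hF
      exact absurd hXD hF
    | cons G l ih =>
      intro F hF h
      have h1 : Cov Ω F G ∧ IsFl Ω G l D := h
      by_cases hG : X ⊆ G
      · exact ⟨[], F, G, l, rfl, rfl, hF, h1.1, hG, h1.2⟩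
      · obtain ⟨p, A, G', s, hl, hp, hA, hc, hX, hs⟩ := ih G hG h1.2
        exact ⟨G :: p, A, G', s, by rw [hl]; rfl, ⟨h1.1, hp⟩, hA, hc, hX, hs⟩
  have key : ∀ (s p : List (Set E)) (A F : Set E), IsFl Ω P p A → ¬ X ⊆ A → Cov Ω A F →
      X ⊆ F → IsFl Ω F s D → ζ (p ++ F :: s) = 0 := by
    intro s
    induction s with
    | nil =>
      intro p A F hp hA hc hX hs
      have hFD : F = D := hs
      subst hFD
      exact h0 p A hp hc hA
    | cons B s ih =>
      intro p A F hp hA hc hX hs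
      have hs1 : Cov Ω F B ∧ IsFl Ω B s D := hs
      have hmem : F ∈ btw Ω A B := by
        classical
        unfold W3.btw
        rw [Finset.mem_filter]
        exact ⟨Finset.mem_univ _, hc, hs1.1⟩
      have hsum := hcyc A B p s hp hc.1 hs1.1.2.1 (hc.2.2.1.trans hs1.1.2.2.1)
        (cov_rk_two hc hs1.1) hs1.2
      have hz : ∀ H ∈ btw Ω A B, H ≠ F → ζ (p ++ H :: B :: s) = 0 := by
        intro H hH hne
        have hH1 : Cov Ω A H ∧ Cov Ω H B := by
          classical
          unfold W3.btw at hH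
          rw [Finset.mem_filter] at hH
          exact hH.2
        have hXH : ¬ X ⊆ H := by
          intro hXH
          obtain ⟨x, hxX, hxA⟩ := Set.not_subset.1 hA
          exact Fo.cov_inter hΩ hc hH1.1 hne ⟨hX hxX, hxA⟩ (hXH hxX)
        have h2 := ih (p ++ [H]) H B (hp.append ⟨hH1.1, rfl⟩) hXH hH1.2
          (hX.trans hs1.1.2.2.1) hs1.2
        rw [List.append_assoc] at h2
        exact h2
      rw [Finset.sum_eq_single_of_mem F hmem hz] at hsum
      exact hsum
  intro l hl
  obtain ⟨p, A, G, s, rfl, hp, hA, hc, hX, hs⟩ := hdec l P hPX hl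
  exact key s p A G hp hA hc hX hs

end Pool.Agent.Q2
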