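import Pool.Agent.Q2.ThFin
import Pool.Agent.Q2.FlDefs

/-!
The private points of a line.

Proof of `r2_private`. Let `F1 := P0 ∈ btw Ω F0 F2`, `P0 ∉ T`. Choose `P1 ∈ btw Ω F0 F2`, `P1 ≠ P0`, such that
the finset `U := ((btw Ω F0 F2) ∩ T).erase P1` (classical) has at most two elements: if
`(btw Ω F0 F2) ∩ T` is empty take any `P1` (`exists_other`), otherwise take `P1` in this set (it is not
`P0`, because `P0 ∉ T`; the set has at most `T.card ≤ 3` elements). Let `s` be the state of
`exists_state_pts` (for `F1 := P0` and `P1`), `c ≠ c'` two colours (`2 ≤ q`), `I = {a, b, d}`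
(`Finset.card_eq_three`).
(1) Claim: if `InY (Rel k v) F0 I y0 y`, `y a ∈ HF s c`, `y b ∈ HF s c'` then `z P0 y = 0`. By `red_KU` for
`P := P0`, the slot `d` and `U` (`P0 ∉ U`) there are two cases. If `y d ∈ van P0`: the last hypothesis
(`P0 ∉ T`). If `y d ∈ KU U`: for every `H ∈ btw Ω F0 F2`, `H ≠ P0`: `z H y = 0`, because: if `H = P1` then
`y a` and `y b` vanish on `H` (`both_van`), use `h2` with `{a, b}`; otherwise, one of `y a`, `y b` vanishes
on `H` (`pair_van`, W3/Forms, with `Or.inr`), and if `H ∉ T` use the last hypothesis, and if `H ∈ T`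
then `H ∈ U`, so `y d ∈ van H`, use `h2` with `{a, d}` or `{b, d}`. So the sum gives `z P0 y = 0`
(`P2.sum_single`).
(2) General `y`: `P2.red_HF` (W3/P2a) in the slot `a` with `c`, then in the slot `b` with `c'`; the parts in
`Rel ⊓ van P0` are killed by the last hypothesis; use `P2.inY_upd` and `HF_sub`.
-/

set_option autoImplicit false

namespace Pool.Agent.Q2

open Pool.Agent.W3

variable {E : Type*} [Fintype E] {N Ω : Matroid E} {q : ℕ} {k T : Type*} [Field k]
  [AddCommGroup T] [Module k T] {v : E → T} {ι : Type*} [Fintype ι] [DecidableEq ι]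

theorem r2_private (hc : Compl N Ω q) (hv : IsRep k N v) (hq : 2 ≤ q) {F0 F2 : Set E}
    {I : Finset ι} (hI : I.card = 3) {y0 : ι → E → k} {z : Set E → ML k E ι}
    (hsum : ∀ y, InY (Rel k v) F0 I y0 y → ∑ H ∈ btw Ω F0 F2, z H y = 0)
    (h2 : ∀ H ∈ btw Ω F0 F2, ∀ y, InY (Rel k v) F0 I y0 y →
      (∃ J ⊆ I, 2 ≤ J.card ∧ ∀ s ∈ J, y s ∈ van k H) → z H y = 0)
    {S : Finset (Set E)} (hS : S.card ≤ 3)
    (h1 : ∀ H ∈ btw Ω F0 F2, H ∉ S → ∀ y, InY (Rel k v) F0 I y0 y →
      (∃ s ∈ I, y s ∈ van k H) → z H y = 0)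
    {P0 : Set E} (hP0 : P0 ∈ btw Ω F0 F2) (hPS : P0 ∉ S) {y : ι → E → k}
    (hy : InY (Rel k v) F0 I y0 y) : z P0 y = 0 := by
  classical
  obtain ⟨h01, h12⟩ := P2.btw_iff.1 hP0
  have hex : ∃ P1 ∈ btw Ω F0 F2, P1 ≠ P0 ∧
      (((btw Ω F0 F2).filter (fun H => H ∈ S)).erase P1).card ≤ 2 := by
    by_cases h : ((btw Ω F0 F2).filter (fun H => H ∈ S)).Nonempty
    · obtain ⟨P1, hP1⟩ := h
      have h3 := Finset.mem_filter.1 hP1
      refine ⟨P1, h3.1, ?_, ?_⟩
      · rintro rfl
        exact hPS h3.2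
      · rw [Finset.card_erase_of_mem hP1]
        have h4 : ((btw Ω F0 F2).filter (fun H => H ∈ S)).card ≤ S.card :=
          Finset.card_le_card (fun H hH => (Finset.mem_filter.1 hH).2)
        omega
    · obtain ⟨H, hH1, hH2, hH3⟩ := exists_other hc.ground h01 h12
      refine ⟨H, P2.btw_iff.2 ⟨hH1, hH2⟩, hH3, ?_⟩
      rw [Finset.not_nonempty_iff_eq_empty.1 h]
      simp
  obtain ⟨P1, hP1, hne, hU⟩ := hex
  have hUsub : ((btw Ω F0 F2).filter (fun H => H ∈ S)).erase P1 ⊆ btw Ω F0 F2 :=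
    (Finset.erase_subset _ _).trans (Finset.filter_subset _ _)
  have hPU : P0 ∉ ((btw Ω F0 F2).filter (fun H => H ∈ S)).erase P1 := fun h =>
    hPS (Finset.mem_filter.1 (Finset.mem_of_mem_erase h)).2
  obtain ⟨h0P, hP2⟩ := P2.btw_iff.1 hP1
  obtain ⟨s, hs, he⟩ := exists_state_pts hc h01 h12 h0P hP2 hne
  obtain ⟨a, b, d, hab, had, hbd, hIe⟩ := Finset.card_eq_three.1 hI
  have haI : a ∈ I := by rw [hIe]; simp
  have hbI : b ∈ I := by rw [hIe]; simp
  have hdI : d ∈ I := by rw [hIe]; simp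
  have hcc : (⟨0, by omega⟩ : Fin q) ≠ ⟨1, by omega⟩ := by simp
  have sub2 : ∀ {x w : ι}, x ∈ I → w ∈ I → ({x, w} : Finset ι) ⊆ I := by
    intro x w hx hw t ht
    rw [Finset.mem_insert, Finset.mem_singleton] at ht
    rcases ht with rfl | rfl
    exacts [hx, hw]
  have claim : ∀ y, InY (Rel k v) F0 I y0 y → y a ∈ HF k v Ω F0 P0 F2 s ⟨0, by omega⟩ →
      y b ∈ HF k v Ω F0 P0 F2 s ⟨1, by omega⟩ → z P0 y = 0 := by
    intro y hy ha hb
    refine red_KU hc hv hq hP0 hUsub hPU hU (z P0) y d (hy.2 d hdI) ?_ ?_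
    · intro L hL
      refine h1 P0 hP0 hPS _ (P2.inY_upd hy hdI ⟨hL.1, P2.van_anti h01.2.2.1 hL.2⟩) ⟨d, hdI, ?_⟩
      rw [Function.update_self]
      exact hL.2
    · intro L hL
      have hy' := P2.inY_upd hy hdI hL.1
      refine P2.sum_single hP0 (hsum _ hy') fun H hH hne' => ?_
      by_cases hHP : H = P1
      · subst hHP
        refine h2 H hH _ hy' ⟨{a, b}, sub2 haI hbI, (Finset.card_pair hab).ge, ?_⟩
        intro t ht
        rw [Finset.mem_insert, Finset.mem_singleton] at ht
        rcases ht with rfl | rfl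
        · rw [Function.update_of_ne had]
          exact both_van hc hv h01 h12 h0P hP2 hne s hs he _ ha
        · rw [Function.update_of_ne hbd]
          exact both_van hc hv h01 h12 h0P hP2 hne s hs he _ hb
      · obtain ⟨h0H, hH2⟩ := P2.btw_iff.1 hH
        have hpv := pair_van hc hv h01 h12 h0H hH2 hne' s hs hcc (Or.inr ha) hb
        by_cases hHS : H ∈ S
        · have hLH := hL.2 H (Finset.mem_erase.2 ⟨hHP, Finset.mem_filter.2 ⟨hH, hHS⟩⟩)
          rcases hpv with h | h
          · refine h2 H hH _ hy' ⟨{a, d}, sub2 haI hdI, (Finset.card_pair had).ge, ?_⟩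
            intro t ht
            rw [Finset.mem_insert, Finset.mem_singleton] at ht
            rcases ht with rfl | rfl
            · rw [Function.update_of_ne had]
              exact h
            · rw [Function.update_self]
              exact hLH
          · refine h2 H hH _ hy' ⟨{b, d}, sub2 hbI hdI, (Finset.card_pair hbd).ge, ?_⟩
            intro t ht
            rw [Finset.mem_insert, Finset.mem_singleton] at ht
            rcases ht with rfl | rfl
            · rw [Function.update_of_ne hbd]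
              exact h
            · rw [Function.update_self]
              exact hLH
        · rcases hpv with h | h
          · refine h1 H hH hHS _ hy' ⟨a, haI, ?_⟩
            rw [Function.update_of_ne had]
            exact h
          · refine h1 H hH hHS _ hy' ⟨b, hbI, ?_⟩
            rw [Function.update_of_ne hbd]
            exact h
  refine P2.red_HF hc hv h01 h12 s hs ⟨0, by omega⟩ (z P0) y a (hy.2 a haI) ?_ ?_
  · intro L hL
    refine h1 P0 hP0 hPS _ (P2.inY_upd hy haI ⟨hL.1, P2.van_anti h01.2.2.1 hL.2⟩) ⟨a, haI, ?_⟩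
    rw [Function.update_self]
    exact hL.2
  · intro L hL
    have hy1 := P2.inY_upd hy haI (HF_sub hL)
    refine P2.red_HF hc hv h01 h12 s hs ⟨1, by omega⟩ (z P0) _ b (hy1.2 b hbI) ?_ ?_
    · intro L' hL'
      refine h1 P0 hP0 hPS _ (P2.inY_upd hy1 hbI ⟨hL'.1, P2.van_anti h01.2.2.1 hL'.2⟩)
        ⟨b, hbI, ?_⟩
      rw [Function.update_self]
      exact hL'.2
    · intro L' hL'
      have hy2 := P2.inY_upd hy1 hbI (HF_sub hL')
      refine claim _ hy2 ?_ ?_
      · rw [Function.update_of_ne hab, Function.update_self]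
        exact hL
      · rw [Function.update_self]
        exact hL'

end Pool.Agent.Q2
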