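import Pool.Agent.Q2.HFun
import Pool.Agent.Q2.FlLem

/-!
Points and lines above a flat `G`, and the function `hRel`.

`ptU Ω G` is the finset of all points (flats covering `G`); `uG G A := G ∪ ⋃ P ∈ A, P`;
`hRel N q G A := hf N q (uG G A) - hf N q G`. A line `L` is a flat with `G ⊆ L`, `Ω.eRk L = Ω.eRk G + 2`; its points
are the members of `btw Ω G L`.

Proofs.
* `uG_line`: `⊆`: the points of `L` are contained in `L`. `⊇`: for `e ∈ L \ G` the flat `Ω.closure (insert e G)`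
  covers `G` and is contained in `L`, of rank `Ω.eRk L - 1`; so it is in `btw Ω G L`.
* `uG_inter`: `A` a set of points. `⊇` clear. `⊆`: let `e ∈ P ∩ L`, `P ∈ A`, `e ∉ G`. Then `P = Ω.closure (insert e G)`
  (both flats have the same finite rank, compare `Fo.cov_inter`, W3/Forms) `⊆ L`, so `P ∈ btw Ω G L`.
* `hRel_union`: `uG G (A ∪ B) = uG G A ∪ uG G B`; `hf_sub` for `uG G A` and `L`, with `uG_line`,
  `uG_inter`; `hf N q L = rN Ω L = rN Ω G + 2` (`hf_flat`, `rN_cov`).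
* `hRel_ge`: `hf_ge` for `uG G A` and `hf_flat` for `G`.
* `card_pts`: `hf_mod` for `P` and `G`, `hf_flat`: `|P| + q c = rN Ω P = rN Ω G + 1`, `|G| + q c' = rN Ω G`.
* `hRel_mod`: `uG G A` is the disjoint union of `G` and the `P \ G`, `P ∈ A` (`Fo.cov_inter`), so
  `|uG G A| = |G| + ∑ (|P| - |G|)`; use `card_pts`, `hf_mod`. (Induction on the finset `A`.)
-/

set_option autoImplicit false

namespace Pool.Agent.Q2

open Pool.Agent.W3 Set

variable {E : Type*} [Fintype E] {N Ω : Matroid E} {q : ℕ}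

open Classical in
/-- The points above `G`. -/
noncomputable def ptU (Ω : Matroid E) (G : Set E) : Finset (Set E) :=
  Finset.univ.filter (fun P => Cov Ω G P)

/-- The union of `G` and the members of `A`. -/
def uG (G : Set E) (A : Finset (Set E)) : Set E := G ∪ ⋃ P ∈ A, P

/-- The function `hf` above `G`. -/
noncomputable def hRel (N : Matroid E) (q : ℕ) (G : Set E) (A : Finset (Set E)) : ℤ :=
  hf N q (uG G A) - hf N q G

theorem mem_ptU {G P : Set E} : P ∈ ptU Ω G ↔ Cov Ω G P := by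
  classical
  unfold ptU
  simp

private theorem mem_btw_iff {G P L : Set E} : P ∈ btw Ω G L ↔ Cov Ω G P ∧ Cov Ω P L := by
  classical
  unfold W3.btw
  simp

private theorem mem_uG {G : Set E} {A : Finset (Set E)} {x : E} :
    x ∈ uG G A ↔ x ∈ G ∨ ∃ P ∈ A, x ∈ P := by
  unfold uG
  simp only [mem_union, mem_iUnion, exists_prop]

private theorem rk_insert (hΩ : Ω.E = univ) {G : Set E} (hG : Ω.IsFlat G) {y : E} (hy : y ∉ G) :
    Ω.eRk (insert y G) = Ω.eRk G + 1 := by
  apply Matroid.eRk_insert_eq_add_one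
  rw [hG.closure]
  exact ⟨by rw [hΩ]; exact mem_univ y, hy⟩

private theorem cov_closure (hΩ : Ω.E = univ) {G P : Set E} (hP : Cov Ω G P) {y : E} (hyP : y ∈ P)
    (hy : y ∉ G) : Ω.closure (insert y G) = P := by
  have h1 := rk_insert hΩ hP.1 hy
  have hfin : Ω.IsRkFinite (insert y G) := Ω.isRkFinite_of_finite (Set.toFinite _)
  have hsub : insert y G ⊆ P := Set.insert_subset hyP hP.2.2.1
  have h2 := hfin.closure_eq_closure_of_subset_of_eRk_ge_eRk hsub (by rw [h1, hP.2.2.2])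
  rw [h2, hP.2.1.closure]

private theorem closure_cov (hΩ : Ω.E = univ) {G : Set E} (hG : Ω.IsFlat G) {y : E} (hy : y ∉ G) :
    Cov Ω G (Ω.closure (insert y G)) ∧ y ∈ Ω.closure (insert y G) := by
  have hsub : insert y G ⊆ Ω.closure (insert y G) :=
    Ω.subset_closure _ (by rw [hΩ]; exact subset_univ _)
  refine ⟨⟨hG, Ω.isFlat_closure _, (subset_insert _ _).trans hsub, ?_⟩, hsub (mem_insert _ _)⟩
  rw [Ω.eRk_closure_eq, rk_insert hΩ hG hy]

private theorem two_eq {a b c : ℕ∞} (h : c = a + 2) (h1 : b = a + 1) : c = b + 1 := by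
  rw [h, h1, add_assoc]
  rfl

theorem uG_line (hΩ : Ω.E = univ) {G L : Set E} (hG : Ω.IsFlat G) (hL : Ω.IsFlat L)
    (hGL : G ⊆ L) (hrk : Ω.eRk L = Ω.eRk G + 2) : uG G (btw Ω G L) = L := by
  ext x
  rw [mem_uG]
  constructor
  · rintro (h | ⟨P, hP, hx⟩)
    · exact hGL h
    · exact (mem_btw_iff.mp hP).2.2.2.1 hx
  · intro hx
    by_cases hxG : x ∈ G
    · exact Or.inl hxG
    · obtain ⟨h1, h2⟩ := closure_cov hΩ hG hxG
      refine Or.inr ⟨Ω.closure (insert x G), mem_btw_iff.mpr ⟨h1, h1.2.1, hL, ?_, ?_⟩, h2⟩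
      · have := Ω.closure_subset_closure (insert_subset hx hGL)
        rwa [hL.closure] at this
      · exact two_eq hrk h1.2.2.2

open Classical in
theorem uG_inter (hΩ : Ω.E = univ) {G L : Set E} (hG : Ω.IsFlat G) (hL : Ω.IsFlat L)
    (hGL : G ⊆ L) (hrk : Ω.eRk L = Ω.eRk G + 2) {A : Finset (Set E)} (hA : A ⊆ ptU Ω G) :
    uG G A ∩ L = uG G (A ∩ btw Ω G L) := by
  ext x
  rw [mem_inter_iff, mem_uG, mem_uG]
  constructor
  · rintro ⟨h | ⟨P, hP, hx⟩, hxL⟩
    · exact Or.inl h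
    · by_cases hxG : x ∈ G
      · exact Or.inl hxG
      · have hc : Cov Ω G P := mem_ptU.mp (hA hP)
        have hcl := cov_closure hΩ hc hx hxG
        refine Or.inr ⟨P, Finset.mem_inter.mpr ⟨hP, mem_btw_iff.mpr ⟨hc, hc.2.1, hL, ?_, ?_⟩⟩, hx⟩
        · have := Ω.closure_subset_closure (insert_subset hxL hGL)
          rwa [hL.closure, hcl] at this
        · exact two_eq hrk hc.2.2.2
  · rintro (h | ⟨P, hP, hx⟩)
    · exact ⟨Or.inl h, hGL h⟩
    · rw [Finset.mem_inter] at hP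
      exact ⟨Or.inr ⟨P, hP.1, hx⟩, (mem_btw_iff.mp hP.2).2.2.2.1 hx⟩

open Classical in
theorem hRel_union (hc : Compl N Ω q) {G L : Set E} (hG : Ω.IsFlat G) (hL : Ω.IsFlat L)
    (hGL : G ⊆ L) (hrk : Ω.eRk L = Ω.eRk G + 2) {A : Finset (Set E)} (hA : A ⊆ ptU Ω G) :
    hRel N q G (A ∪ btw Ω G L) ≤ hRel N q G A + 2 - hRel N q G (A ∩ btw Ω G L) := by
  have hΩ := hc.ground
  have h1 : uG G (A ∪ btw Ω G L) = uG G A ∪ L := by
    have h0 := uG_line hΩ hG hL hGL hrk
    ext x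
    have h0x : x ∈ L ↔ x ∈ uG G (btw Ω G L) := by rw [h0]
    rw [mem_union, h0x, mem_uG, mem_uG, mem_uG]
    simp only [Finset.mem_union]
    constructor
    · rintro (h | ⟨P, hP | hP, hx⟩)
      · exact Or.inl (Or.inl h)
      · exact Or.inl (Or.inr ⟨P, hP, hx⟩)
      · exact Or.inr (Or.inr ⟨P, hP, hx⟩)
    · rintro ((h | ⟨P, hP, hx⟩) | (h | ⟨P, hP, hx⟩))
      · exact Or.inl h
      · exact Or.inr ⟨P, Or.inl hP, hx⟩
      · exact Or.inl h
      · exact Or.inr ⟨P, Or.inr hP, hx⟩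
  have h2 := hf_sub (N := N) (q := q) (uG G A) L
  rw [uG_inter hΩ hG hL hGL hrk hA] at h2
  have h3 := hf_flat hc hL
  have h4 := hf_flat hc hG
  have h5 : rN Ω L = rN Ω G + 2 := rN_cov (n := 2) hrk
  unfold hRel
  rw [h1]
  omega

theorem hRel_ge (hc : Compl N Ω q) {G : Set E} (hG : Ω.IsFlat G) (A : Finset (Set E)) :
    rN Ω (uG G A) - rN Ω G ≤ hRel N q G A := by
  have h1 := hf_ge hc (uG G A)
  have h2 := hf_flat hc hG
  unfold hRel
  omega

theorem card_pts (hc : Compl N Ω q) {G P : Set E} (hGP : Cov Ω G P) :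
    ∃ c : ℤ, (P.ncard : ℤ) - G.ncard = 1 + q * c := by
  obtain ⟨c1, h1⟩ := hf_mod (N := N) (q := q) P
  obtain ⟨c2, h2⟩ := hf_mod (N := N) (q := q) G
  have h3 := hf_flat hc hGP.1
  have h4 := hf_flat hc hGP.2.1
  have h5 : rN Ω P = rN Ω G + 1 := rN_cov (n := 1) hGP.2.2.2
  refine ⟨c2 - c1, ?_⟩
  rw [mul_sub]
  omega

private theorem hRel_mod_aux (hc : Compl N Ω q) {G : Set E} : ∀ A : Finset (Set E), A ⊆ ptU Ω G →
    ∃ c : ℤ, ((uG G A).ncard : ℤ) - G.ncard = A.card + q * c := by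
  classical
  intro A
  induction A using Finset.induction_on with
  | empty =>
    intro _
    refine ⟨0, ?_⟩
    have : uG G (∅ : Finset (Set E)) = G := by
      ext x
      rw [mem_uG]
      simp
    rw [this]
    simp
  | insert P A hPA ih =>
    intro hA
    obtain ⟨c, hc1⟩ := ih ((Finset.subset_insert _ _).trans hA)
    have hP : Cov Ω G P := mem_ptU.mp (hA (Finset.mem_insert_self _ _))
    obtain ⟨c2, hc2⟩ := card_pts hc hP
    refine ⟨c + c2, ?_⟩
    have h1 : uG G (insert P A) = uG G A ∪ P := by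
      ext x
      rw [mem_union, mem_uG, mem_uG]
      simp only [Finset.mem_insert]
      constructor
      · rintro (h | ⟨Q, rfl | hQ, hx⟩)
        · exact Or.inl (Or.inl h)
        · exact Or.inr hx
        · exact Or.inl (Or.inr ⟨Q, hQ, hx⟩)
      · rintro ((h | ⟨Q, hQ, hx⟩) | h)
        · exact Or.inl h
        · exact Or.inr ⟨Q, Or.inr hQ, hx⟩
        · exact Or.inr ⟨P, Or.inl rfl, h⟩
    have h2 : uG G A ∩ P = G := by
      ext x
      rw [mem_inter_iff, mem_uG]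
      constructor
      · rintro ⟨h | ⟨Q, hQ, hx⟩, hxP⟩
        · exact h
        · by_contra hxG
          have hQc : Cov Ω G Q := mem_ptU.mp (hA (Finset.mem_insert_of_mem hQ))
          have e1 := cov_closure hc.ground hQc hx hxG
          have e2 := cov_closure hc.ground hP hxP hxG
          exact hPA (by rw [← e2, e1]; exact hQ)
      · intro h
        exact ⟨Or.inl h, hP.2.2.1 h⟩
    have h3 := ncard_union_add_ncard_inter (uG G A) P (toFinite _) (toFinite _)
    rw [← h1, h2] at h3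
    rw [Finset.card_insert_of_notMem hPA, mul_add]
    push_cast
    omega

theorem hRel_mod (hc : Compl N Ω q) {G : Set E} (hG : Ω.IsFlat G) {A : Finset (Set E)}
    (hA : A ⊆ ptU Ω G) : ∃ c : ℤ, hRel N q G A = A.card + q * c := by
  obtain ⟨c, hc1⟩ := hRel_mod_aux hc A hA
  obtain ⟨c1, h1⟩ := hf_mod (N := N) (q := q) (uG G A)
  obtain ⟨c2, h2⟩ := hf_mod (N := N) (q := q) G
  refine ⟨c + c1 - c2, ?_⟩
  unfold hRel
  rw [mul_sub, mul_add]
  omega

end Pool.Agent.Q2
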