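import Pool.Agent.Q2.FlLem

/-!
The conditions on all levels.

Proof of `levels`. Show by induction on `m`: for all `F, p, s` as in `Lev` with `p.length = m + 1`
the conclusion holds.
`m = 0`: `p = [H]`, `F = H`: this is `hF.bot` (`I.card ≤ 1 + J.card`; `[H] ++ s = H :: s`).
`m + 1`: `p.length = m + 2 =: j`. `p.length + s.length = i` (`IsFl.length_eq` for `p ++ s`), so `j < i`.
We have `J ⊆ I`, `i ≤ j + |J|`, `y t ∈ van F` on `J`; shrink `J` to `|J| = i - j`, put `I' := I \ J`,
`|I'| = j`. Apply `hQ j` to `G`, `F`, `I'`, `y0 := y`, `Z' p' := Z (p' ++ s)`, at `p` and `y`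
(`Ω.eRk F = Ω.eRk G + j` by `IsFl.rk`). For `y'` with `InY R G I' y y'`: `InY R G I y0 y'` (`InY.sub`) and
`y' t = y t ∈ van F` for `t ∈ J`.
* `cyc`: `CycAll.suffix`.
* `top`: `p'` a flag from `G` to `F`, `p'.length = j ≥ 2`, `t ∈ I'`, `y' t ∈ van F`. By `IsFl.last`,
  `p' = p'' ++ [F]`, `IsFl G p'' A`, `Cov A F`, `p''.length = m + 1`. Use the induction hypothesis for
  `A`, `p''`, `F :: s` and the set `insert t J` (`i - j + 1` elements; `van F ≤ van A`);
  `p'' ++ (F :: s) = (p'' ++ [F]) ++ s`.
* `bot`: `p' = H :: l`, `J' ⊆ I'`, `j ≤ 1 + |J'|`, `y' ∈ van H` on `J'`: `hF.bot` for the set `J' ∪ J` (disjoint,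
  at least `i - 1` elements; `H ⊆ F`, so `van F ≤ van H`).
-/

set_option autoImplicit false

namespace Pool.Agent.Q2

open Pool.Agent.W3

variable {E : Type*} [Fintype E] {Ω : Matroid E} {k : Type*} [Field k]
  {R : Submodule k (E → k)} {ι : Type*} [Fintype ι]

theorem levels {i : ℕ} (hQ : ∀ j, 1 ≤ j → j < i → QSt Ω R ι j) {G D : Set E}
    (hG : Ω.IsFlat G) (hrk : Ω.eRk D = Ω.eRk G + i) {I : Finset ι} {y0 : ι → E → k}
    {Z : List (Set E) → ML k E ι} (hI : I.card = i) (hF : Fam Ω R G D I y0 Z) :
    Lev Ω R G D I y0 Z := by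
  classical
  have key : ∀ m : ℕ, ∀ F p s, IsFl Ω G p F → IsFl Ω F s D → p.length = m + 1 → 1 ≤ s.length →
      ∀ y, InY R G I y0 y →
      (∃ J ⊆ I, I.card ≤ p.length + J.card ∧ ∀ t ∈ J, y t ∈ van k F) → Z (p ++ s) y = 0 := by
    intro m
    induction m with
    | zero =>
      intro F p s hp hs hpl hsl y hy hJ
      match p, hpl with
      | [H], _ =>
        have hHF : H = F := hp.2
        subst hHF
        exact hF.bot H s (hp.append hs) y hy hJ
    | succ m ih =>
      intro F p s hp hs hpl hsl y hy hJ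
      obtain ⟨J0, hJ0, hc0, hv0⟩ := hJ
      have hlen : (p ++ s).length = i := (hp.append hs).length_eq hrk
      rw [List.length_append] at hlen
      obtain ⟨J, hJJ, hJc⟩ := Finset.exists_subset_card_eq
        (show i - (m + 2) ≤ J0.card by omega)
      have hJ : J ⊆ I := hJJ.trans hJ0
      have hv : ∀ t ∈ J, y t ∈ van k F := fun t ht => hv0 t (hJJ ht)
      have hGF : G ⊆ F := hp.subset
      have hrkF : Ω.eRk F = Ω.eRk G + ((m + 2 : ℕ) : ℕ∞) := by
        rw [hp.rk, hpl]
      have hcard : (I \ J).card = m + 2 := by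
        rw [Finset.card_sdiff_of_subset hJ]
        omega
      refine hQ (m + 2) (by omega) (by omega) G F hG (hp.flat hG) hGF hrkF (I \ J) y
        (fun p' => Z (p' ++ s)) hcard ?_ p hp y
        ⟨fun _ _ => rfl, fun t ht => hy.2 t (Finset.sdiff_subset ht)⟩
      have hsub : ∀ y', InY R G (I \ J) y y' → InY R G I y0 y' :=
        fun y' hy' => hy.sub (subset_refl G) Finset.sdiff_subset hy'
      have heq : ∀ y', InY R G (I \ J) y y' → ∀ t ∈ J, y' t ∈ van k F := by
        intro y' hy' t ht
        rw [hy'.1 t (fun h => (Finset.mem_sdiff.1 h).2 ht)]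
        exact hv t ht
      constructor
      · intro y' hy'
        exact (hF.cyc y' (hsub y' hy')).suffix hs
      · intro p' hp' y' hy' hex
        obtain ⟨t, ht, htv⟩ := hex
        have hp'l : p'.length = m + 2 := hp'.length_eq hrkF
        have hne : p' ≠ [] := by
          intro h
          rw [h] at hp'l
          simp at hp'l
        obtain ⟨p'', A, he, hA, hAF⟩ := hp'.last hne
        have hp''l : p''.length = m + 1 := by
          rw [he, List.length_append] at hp'l
          simpa using hp'l
        have hcons : p' ++ s = p'' ++ (F :: s) := by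
          rw [he, List.append_assoc]
          rfl
        show Z (p' ++ s) y' = 0
        rw [hcons]
        refine ih A p'' (F :: s) hA ⟨hAF, hs⟩ hp''l (by simp) y' (hsub y' hy')
          ⟨insert t J, ?_, ?_, ?_⟩
        · exact Finset.insert_subset (Finset.sdiff_subset ht) hJ
        · rw [Finset.card_insert_of_notMem (Finset.mem_sdiff.1 ht).2]
          omega
        · intro r hr
          rcases Finset.mem_insert.1 hr with rfl | hr
          · exact van_anti hAF.2.2.1 htv
          · exact van_anti hAF.2.2.1 (heq y' hy' r hr)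
      · intro H l hHl y' hy' hex
        obtain ⟨J', hJ', hJ'c, hJ'v⟩ := hex
        have hHF : H ⊆ F := IsFl.subset hHl.2
        refine hF.bot H (l ++ s) (hHl.append hs) y' (hsub y' hy') ⟨J' ∪ J, ?_, ?_, ?_⟩
        · exact Finset.union_subset (hJ'.trans Finset.sdiff_subset) hJ
        · have hd : Disjoint J' J := Finset.disjoint_of_subset_left hJ' Finset.sdiff_disjoint
          rw [Finset.card_union_of_disjoint hd]
          omega
        · intro r hr
          rcases Finset.mem_union.1 hr with hr | hr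
          · exact hJ'v r hr
          · exact van_anti hHF (heq y' hy' r hr)
  intro F p s hp hs hpl hsl y hy hJ
  obtain ⟨m, hm⟩ : ∃ m, p.length = m + 1 := ⟨p.length - 1, by omega⟩
  exact key m F p s hp hs hm hsl y hy hJ

end Pool.Agent.Q2
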