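import Pool.Agent.Q2.StB1

/-!
All lines are good.

Proof of `stB`. Let `S` be the finset (classical `Finset.univ.filter`) of all `L` which are flats with
`G ⊆ L`, `Ω.eRk L = Ω.eRk G + 2`, `L ⊆ D`, and which are not good. Suppose the claim fails; then `S` is
not empty and `hSp` gives `L ∈ S` and `T`. We show that `L` is good, a contradiction. Let `P, s, y` and
`J ⊆ I` be as in `GoodL` for `L`; shrink `J` to `|J| = i - 3`; `I' := I \ J`, `|I'| = 3`. Apply `hR2 G L`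
to `I'`, `y0 := y`, `z H := Z (H :: L :: s)`, `T`, at `P ∈ btw Ω G L` and `y`. For `y'` with `InY R G I' y y'` we
have `InY R G I y0 y'` (`InY.sub`), and `y' t = y t ∈ van L` for `t ∈ J`.
* sum: `hF.cyc y' _ G L [] s`.
* two arguments in `van H` (`J' ⊆ I'`, `2 ≤ |J'|`): `hF.bot` with `J' ∪ J` (`i - 1` elements,
  `van L ≤ van H`).
* `H ∉ T`, `t ∈ I'`, `y' t ∈ van H`: `stB1` for the point `H` and the line `L` with the set `insert t J`
  (`i - 2` elements). Its hypothesis `hpriv`: let `Cov H L'`, `L' ⊆ D`, `L' ≠ L`. If `L'` were not good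
  then `L' ∈ S` (it is a flat, `G ⊆ H ⊆ L'`, rank: `cov_rk_two`), and `H ⊆ L'` contradicts the choice of
  `T`.
-/

set_option autoImplicit false

namespace Pool.Agent.Q2

open Pool.Agent.W3

variable {E : Type*} [Fintype E] {Ω : Matroid E} {k : Type*} [Field k]
  {R : Submodule k (E → k)} {ι : Type*} [Fintype ι]

theorem stB (hΩ : Ω.E = Set.univ) {i : ℕ} (hi : 3 ≤ i) (hSp : SpSt Ω)
    (hR2 : ∀ F0 F2 : Set E, Ω.IsFlat F0 → Ω.IsFlat F2 → F0 ⊆ F2 →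
      Ω.eRk F2 = Ω.eRk F0 + 2 → R2St Ω R ι F0 F2)
    (hQ : QSt Ω R ι (i - 2)) {G D : Set E} (hG : Ω.IsFlat G)
    (hrk : Ω.eRk D = Ω.eRk G + i) {I : Finset ι} {y0 : ι → E → k}
    {Z : List (Set E) → ML k E ι} (hI : I.card = i)
    (hF : Fam Ω R G D I y0 Z) (hLev : Lev Ω R G D I y0 Z) :
    ∀ L, Ω.IsFlat L → G ⊆ L → Ω.eRk L = Ω.eRk G + 2 → L ⊆ D → GoodL Ω R G D I y0 Z L := by
  classical
  intro L0 hL0 hGL0 hrkL0 hL0D
  by_contra hbad
  set S : Finset (Set E) := Finset.univ.filter (fun L => Ω.IsFlat L ∧ G ⊆ L ∧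
    Ω.eRk L = Ω.eRk G + 2 ∧ L ⊆ D ∧ ¬ GoodL Ω R G D I y0 Z L) with hS
  have hmemS : ∀ L, L ∈ S ↔ Ω.IsFlat L ∧ G ⊆ L ∧ Ω.eRk L = Ω.eRk G + 2 ∧ L ⊆ D ∧
      ¬ GoodL Ω R G D I y0 Z L := by
    intro L
    rw [hS, Finset.mem_filter]
    exact ⟨fun h => h.2, fun h => ⟨Finset.mem_univ _, h⟩⟩
  obtain ⟨L, hLS, T, hTc, hT⟩ := hSp G hG S ⟨L0, (hmemS L0).2 ⟨hL0, hGL0, hrkL0, hL0D, hbad⟩⟩
    (fun L hL => ⟨((hmemS L).1 hL).1, ((hmemS L).1 hL).2.1, ((hmemS L).1 hL).2.2.1⟩)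
  obtain ⟨hL, hGL, hrkL, hLD, hLbad⟩ := (hmemS L).1 hLS
  apply hLbad
  rintro P s hl y hy ⟨J, hJI, hJc, hJv⟩
  have hl1 : Cov Ω G P ∧ Cov Ω P L ∧ IsFl Ω L s D := hl
  obtain ⟨hGP, hPL, hs⟩ := hl1
  obtain ⟨J0, hJ0, hJ0c⟩ := Finset.exists_subset_card_eq (s := J) (n := i - 3) (by omega)
  have hJ0I : J0 ⊆ I := hJ0.trans hJI
  have hI' : (I \ J0).card = 3 := by
    rw [Finset.card_sdiff_of_subset hJ0I]
    omega
  have hmemb : ∀ H, H ∈ btw Ω G L ↔ Cov Ω G H ∧ Cov Ω H L := by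
    intro H
    unfold W3.btw
    rw [Finset.mem_filter]
    exact ⟨fun h => h.2, fun h => ⟨Finset.mem_univ _, h⟩⟩
  have hyy : ∀ y', InY R G (I \ J0) y y' → InY R G I y0 y' := fun y' hy' =>
    hy.sub (Set.Subset.refl G) Finset.sdiff_subset hy'
  have hyJ : ∀ y', InY R G (I \ J0) y y' → ∀ t ∈ J0, y' t ∈ van k L := by
    intro y' hy' t ht
    rw [hy'.1 t (fun h => (Finset.mem_sdiff.1 h).2 ht)]
    exact hJv t (hJ0 ht)
  have hanti : ∀ H, Cov Ω H L → ∀ x ∈ van k L, x ∈ van k H := by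
    intro H hHL x hx e he
    exact hx e (hHL.2.2.1 he)
  refine hR2 G L hG hL hGL hrkL (I \ J0) y (fun H => Z (H :: L :: s)) hI' ?_ ?_ T hTc ?_ P
    ((hmemb P).2 ⟨hGP, hPL⟩) y
    ⟨fun _ _ => rfl, fun t ht => hy.2 t (Finset.mem_sdiff.1 ht).1⟩
  · intro y' hy'
    exact hF.cyc y' (hyy y' hy') G L [] s rfl hG hL hGL hrkL hs
  · rintro H hH y' hy' ⟨J', hJ'I, hJ'c, hJ'v⟩
    obtain ⟨hGH, hHL⟩ := (hmemb H).1 hH
    refine hF.bot H (L :: s) ⟨hGH, hHL, hs⟩ y' (hyy y' hy') ⟨J' ∪ J0, ?_, ?_, ?_⟩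
    · exact Finset.union_subset (hJ'I.trans Finset.sdiff_subset) hJ0I
    · have hdis : Disjoint J' J0 := by
        rw [Finset.disjoint_left]
        intro t ht ht0
        exact (Finset.mem_sdiff.1 (hJ'I ht)).2 ht0
      rw [Finset.card_union_of_disjoint hdis]
      omega
    · intro t ht
      rcases Finset.mem_union.1 ht with ht | ht
      · exact hJ'v t ht
      · exact hanti H hHL _ (hyJ y' hy' t ht)
  · rintro H hH hHT y' hy' ⟨t, ht, htv⟩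
    obtain ⟨hGH, hHL⟩ := (hmemb H).1 hH
    refine stB1 hΩ hi hQ hGH hHL hLD hrk hI hF hLev ?_ (L :: s) ⟨hHL, hs⟩ y' (hyy y' hy')
      ⟨insert t J0, ?_, ?_, ?_⟩
    · intro L' hHL' hL'D hne
      by_contra hb
      have hL'S : L' ∈ S := (hmemS L').2 ⟨hHL'.2.1, hGH.2.2.1.trans hHL'.2.2.1,
        cov_rk_two hGH hHL', hL'D, hb⟩
      exact hT H hH hHT L' hL'S hne hHL'.2.2.1
    · intro r hr
      rcases Finset.mem_insert.1 hr with rfl | hr
      · exact (Finset.mem_sdiff.1 ht).1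
      · exact hJ0I hr
    · rw [Finset.card_insert_of_notMem (Finset.mem_sdiff.1 ht).2]
      omega
    · intro r hr
      rcases Finset.mem_insert.1 hr with rfl | hr
      · exact htv
      · exact hanti H hHL _ (hyJ y' hy' r hr)

end Pool.Agent.Q2
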