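import Pool.Agent.Q2.FlLem

/-!
Application of the statement in rank `i - 2` to the flats between a point `P` and a hyperplane `H`.

Proof of `stC`. Let `J ⊆ I` be the set of the hypothesis, shrink it to `|J| = i - 2`. Apply `hQ` to
`P`, `H`, the slots `J`, `y0 := y` and `Z' s := Z (P :: (s ++ [D]))`, at `s` and `y`; `y` satisfies
`InY R P J y y`. (`Ω.IsFlat H` is in `hHD`; `Ω.eRk H = Ω.eRk P + (i - 2)` by cancellation from
`hrk`, `hGP`, `hHD`.) For `y'` with `InY R P J y y'` we have `InY R G I y0 y'` (`InY.sub`, W3/Claim).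
* `cyc`: `(hF.cyc y' _).cons hGP`, then `.suffix` with `[D]`.
* `top`: `s'` a flag from `P` to `H`, `t ∈ J`, `y' t ∈ van H`: `hL` with `F := H`, `p := P :: s'`, `s := [D]`;
  `p.length = i - 1` (`IsFl.length_eq`), the set `{t}`.
* `bot`: `s' = F :: l`, `J' ⊆ J`, `|J| ≤ 1 + |J'|`, so `i ≤ 3 + |J'|`: `hgood`.
-/

set_option autoImplicit false

namespace Pool.Agent.Q2

open Pool.Agent.W3

variable {E : Type*} [Fintype E] {Ω : Matroid E} {k : Type*} [Field k]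
  {R : Submodule k (E → k)} {ι : Type*} [Fintype ι]

theorem stC {i : ℕ} (hi : 3 ≤ i) (hQ : QSt Ω R ι (i - 2)) {G P H D : Set E}
    (hGP : Cov Ω G P) (hPH : P ⊆ H) (hHD : Cov Ω H D) (hrk : Ω.eRk D = Ω.eRk G + i)
    {I : Finset ι} {y0 : ι → E → k} {Z : List (Set E) → ML k E ι} (hI : I.card = i)
    (hF : Fam Ω R G D I y0 Z) (hL : Lev Ω R G D I y0 Z)
    (hgood : ∀ F s, IsFl Ω P (F :: s) H → ∀ y, InY R G I y0 y →
      (∃ J ⊆ I, I.card ≤ 3 + J.card ∧ ∀ t ∈ J, y t ∈ van k F) →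
      Z (P :: F :: (s ++ [D])) y = 0) :
    ∀ s, IsFl Ω P s H → ∀ y, InY R G I y0 y →
      (∃ J ⊆ I, I.card ≤ 2 + J.card ∧ ∀ t ∈ J, y t ∈ van k P) →
      Z (P :: (s ++ [D])) y = 0 := by
  classical
  intro s hs y hy hJ
  obtain ⟨J, hJI, hJc, hJv⟩ := hJ
  obtain ⟨J0, hJ0, hJ0c⟩ := Finset.exists_subset_card_eq (s := J) (n := i - 2) (by omega)
  have hrk' : Ω.eRk H = Ω.eRk P + ((i - 2 : ℕ) : ℕ∞) := by
    have h1 : Ω.eRk H + 1 = Ω.eRk P + ((i - 2 : ℕ) : ℕ∞) + 1 := by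
      rw [← hHD.2.2.2, hrk, hGP.2.2.2, add_assoc, add_assoc]
      congr 1
      have : i = 1 + (i - 2 + 1) := by omega
      conv_lhs => rw [this]
      push_cast
      rfl
    exact (WithTop.add_right_inj ENat.one_ne_top).1 h1
  have hsub : ∀ y', InY R P J0 y y' → InY R G I y0 y' := fun y' hy' =>
    hy.sub hGP.2.2.1 (hJ0.trans hJI) hy'
  have hHDf : IsFl Ω H [D] D := ⟨hHD, rfl⟩
  have hFam : Fam Ω R P H J0 y (fun s => Z (P :: (s ++ [D]))) := by
    refine ⟨fun y' hy' => ?_, fun l hl y' hy' ht => ?_, fun F l hl y' hy' hJ' => ?_⟩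
    · exact ((hF.cyc y' (hsub y' hy')).cons hGP).suffix hHDf
    · obtain ⟨t, htJ, htv⟩ := ht
      have hlen : l.length = i - 2 := hl.length_eq hrk'
      have hfl : IsFl Ω G (P :: l) H := ⟨hGP, hl⟩
      refine hL H (P :: l) [D] hfl hHDf (by simp) (by simp) y' (hsub y' hy')
        ⟨{t}, ?_, ?_, ?_⟩
      · exact Finset.singleton_subset_iff.2 (hJI (hJ0 htJ))
      · rw [hI, List.length_cons, hlen, Finset.card_singleton]
        omega
      · intro r hr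
        rw [Finset.mem_singleton.1 hr]
        exact htv
    · obtain ⟨J', hJ'J, hJ'c, hJ'v⟩ := hJ'
      exact hgood F l hl y' (hsub y' hy')
        ⟨J', hJ'J.trans (hJ0.trans hJI), by omega, hJ'v⟩
  exact hQ P H hGP.2.1 hHD.1 hPH hrk' J0 y (fun s => Z (P :: (s ++ [D]))) hJ0c hFam s hs y
    ⟨fun _ _ => rfl, fun r hr => ⟨(hy.2 r (hJI (hJ0 hr))).1, hJv r (hJ0 hr)⟩⟩

end Pool.Agent.Q2
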