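import Pool.Agent.Q2.Opp
import Pool.Agent.Q2.StC

/-!
Private points.

Proof of `stB1`. Fix `y` and let `J ⊆ I` be the set of the hypothesis (`y t ∈ van P` on `J`,
`I.card ≤ 2 + J.card`). Apply `opp` with `X := L`: `L` is not contained in `P` (rank), `L ⊆ D`, and
`ζ s := Z (P :: s) y` is a cycle by `(hF.cyc y _).cons hGP`. For `p, H` with `IsFl P p H`, `Cov H D` and
`¬ L ⊆ H`: `Z (P :: (p ++ [D])) y = 0` by `stC`; its hypothesis `hgood`: if `IsFl P (F :: s) H` then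
`F ⊆ H`, so `F ≠ L`, `F ⊆ D`, `Cov P F`; by `hpriv` `F` is good, and `GoodL` for `P`, `s ++ [D]` is what is
needed (`IsFl G (P :: F :: (s ++ [D])) D` by `IsFl.append`).
-/

set_option autoImplicit false

namespace Pool.Agent.Q2

open Pool.Agent.W3

variable {E : Type*} [Fintype E] {Ω : Matroid E} {k : Type*} [Field k]
  {R : Submodule k (E → k)} {ι : Type*} [Fintype ι]

theorem stB1 (hΩ : Ω.E = Set.univ) {i : ℕ} (hi : 3 ≤ i) (hQ : QSt Ω R ι (i - 2))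
    {G P L D : Set E} (hGP : Cov Ω G P) (hPL : Cov Ω P L) (hLD : L ⊆ D)
    (hrk : Ω.eRk D = Ω.eRk G + i) {I : Finset ι} {y0 : ι → E → k}
    {Z : List (Set E) → ML k E ι} (hI : I.card = i)
    (hF : Fam Ω R G D I y0 Z) (hLev : Lev Ω R G D I y0 Z)
    (hpriv : ∀ L', Cov Ω P L' → L' ⊆ D → L' ≠ L → GoodL Ω R G D I y0 Z L') :
    ∀ s, IsFl Ω P s D → ∀ y, InY R G I y0 y →
      (∃ J ⊆ I, I.card ≤ 2 + J.card ∧ ∀ t ∈ J, y t ∈ van k P) → Z (P :: s) y = 0 := by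
  intro s hs y hy hJ
  have hPX : ¬ L ⊆ P := by
    intro hLP
    have h1 := Ω.eRk_mono hLP
    rw [hPL.2.2.2] at h1
    have h2 : Ω.eRk P ≠ ⊤ := by
      have h3 : Ω.eRk P ≤ Ω.eRank := Ω.eRk_le_eRank P
      have h4 : Ω.eRank ≠ ⊤ := (Matroid.eRank_ne_top_iff Ω).2 inferInstance
      exact ne_top_of_le_ne_top h4 h3
    exact absurd h1 (not_le.2 (ENat.lt_add_one_iff h2 |>.2 le_rfl))
  refine opp hΩ (ζ := fun s => Z (P :: s) y) hPX hLD ((hF.cyc y hy).cons hGP) ?_ s hs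
  intro p H hp hHD hLH
  refine stC hi hQ hGP hp.subset hHD hrk hI hF hLev ?_ p hp y hy hJ
  intro F s' hFs y' hy' hJ'
  have hFH : F ⊆ H := hFs.2.subset
  refine hpriv F hFs.1 (hFH.trans hHD.2.2.1) ?_ P (s' ++ [D]) ?_ y' hy' hJ'
  · intro h
    exact hLH (h ▸ hFH)
  · exact ⟨hGP, hFs.1, hFs.2.append ⟨hHD, rfl⟩⟩

end Pool.Agent.Q2
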