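import Pool.Agent.Q2.StA
import Pool.Agent.Q2.StB

/-!
The induction step.

Proof of `qst_step`. Let `G, D, I, y0, Z` be as in `QSt` for `i`. `hLev := levels ..`; all lines are good
by `stB`. So (b1+): for `Cov G P`, `P ⊆ H`, `Cov H D`, `IsFl P s H`, and `y` with at least `i - 2` arguments in
`van P`: `Z (P :: (s ++ [D])) y = 0`, by `stC`: its hypothesis `hgood` is `GoodL` of the line `F`
(`Cov P F`, `F ⊆ H ⊆ D`) for `P` and `s ++ [D]`.
Now let `l` be a flag from `G` to `D`, `InY R G I y0 y`. `l.length = i`, so by `IsFl.last`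
`l = p ++ [D]`, `IsFl G p H`, `Cov H D`. Choose `r ∈ I`, `J := I.erase r`, `|J| = i - 1`. Apply
`hQ (i - 1)` to `G`, `H`, `J`, `y0 := y`, `Z' p' := Z (p' ++ [D])`, at `p` and `y`.
* `cyc`: `CycAll.suffix`.
* `top`: `t ∈ J`, `y' t ∈ van H`: `hLev` with `F := H`, `p'`, `[D]`, `{t}` (`p'.length = i - 1`).
* `bot`: `p' = P :: s`, `J' ⊆ J`, `|J| ≤ 1 + |J'|`, so `I.card ≤ 2 + |J'|`: (b1+).
-/

set_option autoImplicit false

namespace Pool.Agent.Q2

open Pool.Agent.W3

variable {E : Type*} [Fintype E] {Ω : Matroid E} {k : Type*} [Field k]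
  {R : Submodule k (E → k)} {ι : Type*} [Fintype ι]

theorem qst_step (hΩ : Ω.E = Set.univ) {i : ℕ} (hi : 3 ≤ i) (hSp : SpSt Ω)
    (hR2 : ∀ F0 F2 : Set E, Ω.IsFlat F0 → Ω.IsFlat F2 → F0 ⊆ F2 →
      Ω.eRk F2 = Ω.eRk F0 + 2 → R2St Ω R ι F0 F2)
    (hQ : ∀ j, 1 ≤ j → j < i → QSt Ω R ι j) : QSt Ω R ι i := by
  classical
  intro G D hG hD hGD hrk I y0 Z hI hF l hl y hy
  have hQ2 : QSt Ω R ι (i - 2) := hQ (i - 2) (by omega) (by omega)
  have hLev : Lev Ω R G D I y0 Z := levels hQ hG hrk hI hF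
  have hgood := stB hΩ hi hSp hR2 hQ2 hG hrk hI hF hLev
  have hlen : l.length = i := hl.length_eq hrk
  obtain ⟨p, H, rfl, hp, hHD⟩ := hl.last (by
    rintro rfl
    simp at hlen
    omega)
  have hplen : p.length = i - 1 := by
    rw [List.length_append, List.length_singleton] at hlen
    omega
  have hHrk : Ω.eRk H = Ω.eRk G + (i - 1 : ℕ) := by rw [hp.rk, hplen]
  have hHfl : Ω.IsFlat H := hHD.1
  have hD1 : IsFl Ω H [D] D := ⟨hHD, rfl⟩
  obtain ⟨r, hr⟩ : I.Nonempty := Finset.card_pos.1 (by omega)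
  have hJ : (I.erase r).card = i - 1 := by rw [Finset.card_erase_of_mem hr, hI]
  have hsub : ∀ y', InY R G (I.erase r) y y' → InY R G I y0 y' := fun y' h =>
    InY.sub (fun _ h => h) (Finset.erase_subset _ _) hy h
  have hyy : InY R G (I.erase r) y y :=
    ⟨fun _ _ => rfl, fun s hs => hy.2 s (Finset.mem_of_mem_erase hs)⟩
  have hFam : Fam Ω R G H (I.erase r) y (fun p' => Z (p' ++ [D])) := by
    refine ⟨fun y' hy' => (hF.cyc y' (hsub y' hy')).suffix hD1, ?_, ?_⟩
    · rintro p' hp' y' hy' ⟨t, ht, htv⟩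
      have hp'len : p'.length = i - 1 := hp'.length_eq hHrk
      refine hLev H p' [D] hp' hD1 (by omega) (by simp) y' (hsub y' hy') ⟨{t}, ?_, ?_, ?_⟩
      · intro x hx
        rw [Finset.mem_singleton] at hx
        subst hx
        exact Finset.mem_of_mem_erase ht
      · rw [Finset.card_singleton]
        omega
      · intro x hx
        rw [Finset.mem_singleton] at hx
        subst hx
        exact htv
    · rintro P s hPs y' hy' ⟨J', hJ', hc, hv⟩
      refine stC hi hQ2 hPs.1 hPs.2.subset hHD hrk hI hF hLev ?_ s hPs.2 y' (hsub y' hy')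
        ⟨J', hJ'.trans (Finset.erase_subset _ _), by omega, hv⟩
      intro F s' hFs y'' hy'' hJ''
      have hPF : Cov Ω P F := hFs.1
      have hFD : IsFl Ω F (s' ++ [D]) D := hFs.2.append hD1
      exact hgood F hPF.2.1 (hPs.1.2.2.1.trans hPF.2.2.1) (cov_rk_two hPs.1 hPF) hFD.subset
        P (s' ++ [D]) ⟨hPs.1, hPF, hFD⟩ y'' hy'' hJ''
  exact hQ (i - 1) (by omega) (by omega) G H hG hHfl hp.subset hHrk (I.erase r) y
    (fun p' => Z (p' ++ [D])) hJ hFam p hp y hyy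

end Pool.Agent.Q2
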